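import Pool.Agent.H442R3.SP.Pnt

/-!
# The algorithm
-/

namespace Pool.Agent.H442R3.SP

open Pool.Agent.NPC Pool.Agent.H442R3.MPar Module Pool.Agent.H442R3.SD

/-- bound for the number of lines -/
def b1 (L : ℕ) : ℕ := L * L * L + (L * L + 2 * L) * (L * L + 2 * L)

/-- lower bound for the prime, and number of rounds -/
def b0 (L : ℕ) : ℕ := (b1 L + 1) * (b1 L + 1) * (2 * L + 2) + 2

/-- square root of the upper bound for the prime -/
def tt (L : ℕ) : ℕ := b0 L + (2 * L * L * L + 4 * L * L + 1) + 4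

/-- primality test -/
def isP (p : ℕ) : Bool :=
  decide (2 ≤ p) && (List.range p).all (fun d => !(decide (2 ≤ d) && decide (p % d = 0)))

/-- test for one prime -/
def chk (I : List (List (List (ℤ × List ℕ)))) (L p : ℕ) : Bool :=
  decide (b0 L < p) && (isP p && decide (hrank p (List.range (2 * I.length))
    (List.range (2 * I.length + 2)) (LL p I)
      (search p (List.range (2 * I.length)) (List.range (2 * I.length + 2))
        (List.range (LL p I).length) (List.range p) (LL p I) (List.range (b0 L))) = I.length))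

/-- the algorithm -/
def algo (I : List (List (List (ℤ × List ℕ)))) (L : ℕ) : Bool :=
  (List.range (tt L * tt L)).any (fun p0 => chk I L (min p0 (tt L * tt L) + 1))

theorem isP_iff (p : ℕ) : isP p = true ↔ p.Prime := by
  rw [isP, Bool.and_eq_true, decide_eq_true_iff, List.all_eq_true, Nat.prime_def_lt']
  refine and_congr_right fun _ => ?_
  constructor
  · intro h m hm hmp hd
    have h1 := h m (List.mem_range.2 hmp)
    simp only [Bool.not_eq_eq_eq_not, Bool.not_true, Bool.and_eq_false_imp, decide_eq_true_eq,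
      decide_eq_false_iff_not] at h1
    exact h1 hm (Nat.mod_eq_zero_of_dvd hd)
  · intro h d hd
    rw [List.mem_range] at hd
    simp only [Bool.not_eq_eq_eq_not, Bool.not_true, Bool.and_eq_false_imp, decide_eq_true_eq,
      decide_eq_false_iff_not]
    intro h2 h0
    exact h d h2 hd (Nat.dvd_of_mod_eq_zero h0)

section

variable (I : List (List (List (ℤ × List ℕ))))

theorem bound_ok (p L : ℕ) (hL : sz I ≤ L) :
    ((LL p I).length + 1) ^ 2 * (2 * I.length + 2) + 2 ≤ b0 L := by
  have h1 : (LL p I).length ≤ b1 L := LL_len p I L hL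
  have h2 : I.length ≤ L := (len_le_sz I).trans hL
  rw [b0, sq]
  gcongr

/-- **correctness for one prime** -/
theorem chk_sound (hPf : Pf I) (hs : Cls (KK I) (CC I))
    (L p : ℕ) (hL : sz I ≤ L) (h : chk I L p = true) :
    ∃ z : ℕ → ℤ, (MM (KK I) (CC I) (mon z)).det ≠ 0 := by
  rw [chk, Bool.and_eq_true, Bool.and_eq_true, decide_eq_true_iff, decide_eq_true_iff, isP_iff] at h
  obtain ⟨h1, h2, h3⟩ := h
  have hp : Fact p.Prime := ⟨h2⟩
  have hb := bound_ok I p L hL
  obtain ⟨-, M, hM, hMc⟩ := lines_correct p (2 * I.length) (LL p I) (line_len p I) (line_dim p I)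
    (by omega) (List.range (b0 L)) (by rw [List.length_range]; omega)
  obtain ⟨x, hx⟩ := bwd p I hPf M hM (hMc.trans h3)
  exact exists_point (KK I) (CC I) hs x hx

theorem chk_complete (hPf : Pf I) (L p : ℕ) (hL : sz I ≤ L) (hprime : p.Prime) (hlt : b0 L < p)
    (x : List ℕ → ℤ) (hx : ¬ (p : ℤ) ∣ (MM (KK I) (CC I) x).det) : chk I L p = true := by
  have hp : Fact p.Prime := ⟨hprime⟩
  rw [chk, Bool.and_eq_true, Bool.and_eq_true, decide_eq_true_iff, decide_eq_true_iff, isP_iff]
  refine ⟨hlt, hprime, ?_⟩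
  have hb := bound_ok I p L hL
  have hp2 : p ≠ 2 := by
    have : 2 ≤ b0 L := by rw [b0]; omega
    omega
  have h2 : (2 : ZMod p) ≠ 0 := by
    intro h0
    have h3 : ((2 : ℕ) : ZMod p) = 0 := by exact_mod_cast h0
    rw [ZMod.natCast_eq_zero_iff] at h3
    exact hp2 ((Nat.prime_dvd_prime_iff_eq hprime Nat.prime_two).1 h3)
  obtain ⟨h3, M, hM, hMc⟩ := lines_correct p (2 * I.length) (LL p I) (line_len p I) (line_dim p I)
    (by omega) (List.range (b0 L)) (by rw [List.length_range]; omega)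
  obtain ⟨M', hM', hMc'⟩ := fwd p I h2 hPf x (test_of_det hp2 (KK I) (CC I) x hx)
  have h4 := h3 M' hM'
  have h5 := card_le p I M hM
  omega

/-- **correctness** -/
theorem algo_correct (hPf : Pf I) (hs : Cls (KK I) (CC I)) :
    algo I (sz I) = true ↔ ∃ z : ℕ → ℤ, (MM (KK I) (CC I) (mon z)).det ≠ 0 := by
  rw [algo, List.any_eq_true]
  constructor
  · rintro ⟨p0, _, h⟩
    exact chk_sound I hPf hs (sz I) _ le_rfl h
  · intro h
    obtain ⟨z, hz, hdet⟩ := exists_small (KK I) (CC I) (sz I)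
      (fun k hk => vrs_sz I k (List.mem_toFinset.1 hk)) h (VV I)
    obtain ⟨p, hp, hlt, hle, hnd⟩ := exists_prime (b0 (sz I))
      (2 * sz I * sz I * sz I + 4 * sz I * sz I + 1) _ hdet (det_bound I z hz) (tt (sz I)) rfl
    have hp1 : 1 ≤ p := hp.one_lt.le
    refine ⟨p - 1, List.mem_range.2 (by omega), ?_⟩
    have e1 : min (p - 1) (tt (sz I) * tt (sz I)) + 1 = p := by omega
    rw [e1]
    exact chk_complete I hPf (sz I) p le_rfl hp hlt (mon z) hnd

end

section poly

variable {α : Type} [TEnc α]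

theorem poly_int {z : α → ℤ} (hz : Poly z) : Poly (fun a => (decide (z a < 0), (z a).natAbs)) :=
  Poly.of_toT (Poly.toT' hz)

theorem poly_rs {p : α → ℕ} {z : α → ℤ} (hp : Poly p) (hz : Poly z) :
    Poly (fun a => rs (p a) (z a)) := by
  have h := poly_int hz
  have h1 : Poly (fun a => decide (z a < 0)) := NPC.Poly.fst h
  have h2 : Poly (fun a => (z a).natAbs) := NPC.Poly.snd h
  unfold rs
  fun_prop

theorem poly_ety {I : α → List (List (List (ℤ × List ℕ)))} {i j : α → ℕ} (hI : Poly I) (hi : Poly i)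
    (hj : Poly j) : Poly (fun a => ety (I a) (i a) (j a)) := by
  unfold ety
  fun_prop

attribute [fun_prop] poly_rs poly_ety

theorem poly_aL {p i j : α → ℕ} {k : α → List ℕ} {I : α → List (List (List (ℤ × List ℕ)))}
    (hp : Poly p) (hI : Poly I) (hk : Poly k) (hi : Poly i) (hj : Poly j) : Poly (fun a => aL (p a) (I a) (k a) (i a) (j a)) := by
  unfold aL
  fun_prop

attribute [fun_prop] poly_aL

theorem poly_sL {p i : α → ℕ} {R k : α → List ℕ} {I : α → List (List (List (ℤ × List ℕ)))} (hp : Poly p)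
    (hI : Poly I) (hR : Poly R) (hk : Poly k) (hi : Poly i) :
    Poly (fun a => sL (p a) (I a) (R a) (k a) (i a)) := by
  unfold sL
  fun_prop

theorem poly_dL {p i : α → ℕ} {R k : α → List ℕ} {I : α → List (List (List (ℤ × List ℕ)))} (hp : Poly p)
    (hI : Poly I) (hR : Poly R) (hk : Poly k) (hi : Poly i) :
    Poly (fun a => dL (p a) (I a) (R a) (k a) (i a)) := by
  unfold dL
  fun_prop

theorem poly_eL {n c : α → ℕ} {RN : α → List ℕ} (hR : Poly RN) (hn : Poly n) (hc : Poly c) :
    Poly (fun a => eL (RN a) (n a) (c a)) := by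
  unfold eL
  fun_prop

theorem poly_vrs {I : α → List (List (List (ℤ × List ℕ)))} (hI : Poly I) : Poly (fun a => vrs (I a)) := by
  unfold vrs
  fun_prop

attribute [fun_prop] poly_sL poly_dL poly_eL poly_vrs

theorem poly_Jl {p : α → ℕ} {R : α → List ℕ} {I : α → List (List (List (ℤ × List ℕ)))} (hp : Poly p)
    (hI : Poly I) (hR : Poly R) : Poly (fun a => Jl (p a) (I a) (R a)) := by
  unfold Jl
  fun_prop

theorem poly_Wv {p : α → ℕ} {R RN : α → List ℕ} {I : α → List (List (List (ℤ × List ℕ)))} (hp : Poly p)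
    (hI : Poly I) (hR : Poly R) (hRN : Poly RN) : Poly (fun a => Wv (p a) (I a) (R a) (RN a)) := by
  unfold Wv
  fun_prop

attribute [fun_prop] poly_Jl poly_Wv

theorem poly_Wl {p : α → ℕ} {R RN : α → List ℕ} {I : α → List (List (List (ℤ × List ℕ)))} (hp : Poly p)
    (hI : Poly I) (hR : Poly R) (hRN : Poly RN) : Poly (fun a => Wl (p a) (I a) (R a) (RN a)) := by
  unfold Wl
  fun_prop

attribute [fun_prop] poly_Wl

theorem poly_LL {p : α → ℕ} {I : α → List (List (List (ℤ × List ℕ)))} (hp : Poly p)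
    (hI : Poly I) : Poly (fun a => LL (p a) (I a)) := by
  have h1 : Poly (fun a => List.range (I a).length) := (UPoly.length hI).range
  have h2 : Poly (fun a => List.range (2 * (I a).length)) :=
    (UPoly.mul (UPoly.const 2) (UPoly.length hI)).range
  unfold LL Ln
  fun_prop

theorem upoly_b0 {L : α → ℕ} (hL : UPoly L) : UPoly (fun a => b0 (L a)) := by
  have h1 : UPoly (fun a => b1 (L a)) :=
    UPoly.add (UPoly.mul (UPoly.mul hL hL) hL)
      (UPoly.mul (UPoly.add (UPoly.mul hL hL) (UPoly.mul (UPoly.const 2) hL))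
        (UPoly.add (UPoly.mul hL hL) (UPoly.mul (UPoly.const 2) hL)))
  exact UPoly.add (UPoly.mul (UPoly.mul (UPoly.add h1 (UPoly.const 1)) (UPoly.add h1 (UPoly.const 1)))
    (UPoly.add (UPoly.mul (UPoly.const 2) hL) (UPoly.const 2))) (UPoly.const 2)

theorem upoly_tt {L : α → ℕ} (hL : UPoly L) : UPoly (fun a => tt (L a)) :=
  UPoly.add (UPoly.add (upoly_b0 hL) (UPoly.add (UPoly.add
    (UPoly.mul (UPoly.mul (UPoly.mul (UPoly.const 2) hL) hL) hL)
    (UPoly.mul (UPoly.mul (UPoly.const 4) hL) hL)) (UPoly.const 1))) (UPoly.const 4)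

theorem poly_isP {p : α → ℕ} (hp : UPoly p) : Poly (fun a => isP (p a)) := by
  have h1 : Poly (fun a => List.range (p a)) := hp.range
  have h2 : Poly p := hp.toPoly
  unfold isP
  fun_prop

theorem poly_chk {I : α → List (List (List (ℤ × List ℕ)))} {L p : α → ℕ} (hI : Poly I) (hL : UPoly L)
    (hp : UPoly p) (hp0 : ∀ a, 0 < p a) : Poly (fun a => chk (I a) (L a) (p a)) := by
  have hp' : Poly p := hp.toPoly
  have hR : Poly (fun a => List.range (2 * (I a).length)) :=
    (UPoly.mul (UPoly.const 2) (UPoly.length hI)).range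
  have hRN : Poly (fun a => List.range (2 * (I a).length + 2)) :=
    (UPoly.add (UPoly.mul (UPoly.const 2) (UPoly.length hI)) (UPoly.const 2)).range
  have hLL : Poly (fun a => LL (p a) (I a)) := poly_LL hp' hI
  have hIm : Poly (fun a => List.range (LL (p a) (I a)).length) := (UPoly.length hLL).range
  have hF : Poly (fun a => List.range (p a)) := hp.range
  have hT : Poly (fun a => List.range (b0 (L a))) := (upoly_b0 hL).range
  have hb : Poly (fun a => b0 (L a)) := (upoly_b0 hL).toPoly
  have h1 := poly_isP hp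
  have h2 := poly_hrank hp' hp0 hR hRN hLL (poly_search hp' hp0 hR hRN hIm hF hLL hT)
  have h3 : Poly (fun a => (I a).length) := NPC.Poly.length hI
  unfold chk
  exact NPC.Poly.and (NPC.Poly.decide_lt hb hp') (NPC.Poly.and h1 (NPC.Poly.decide_eq h2 h3))

theorem poly_algo {I : α → List (List (List (ℤ × List ℕ)))} {L : α → ℕ} (hI : Poly I) (hL : UPoly L) :
    Poly (fun a => algo (I a) (L a)) := by
  have hT : UPoly (fun a => tt (L a) * tt (L a)) := UPoly.mul (upoly_tt hL) (upoly_tt hL)
  unfold algo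
  refine NPC.Poly.any (l := fun a => List.range (tt (L a) * tt (L a)))
    (p := fun a p0 => chk (I a) (L a) (min p0 (tt (L a) * tt (L a)) + 1)) hT.range ?_
  have hT1 : UPoly (fun q : α × ℕ => tt (L q.1) * tt (L q.1)) := hT.comp (NPC.Poly.fst NPC.Poly.id)
  have hm : UPoly (fun q : α × ℕ => min q.2 (tt (L q.1) * tt (L q.1))) :=
    UPoly.of_le (NPC.Poly.min (NPC.Poly.snd NPC.Poly.id) hT1.toPoly) hT1 (fun a => min_le_right _ _)
  exact poly_chk (I := fun q : α × ℕ => I q.1) (L := fun q : α × ℕ => L q.1)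
    (p := fun q : α × ℕ => min q.2 (tt (L q.1) * tt (L q.1)) + 1)
    (hI.comp (NPC.Poly.fst NPC.Poly.id)) (hL.comp (NPC.Poly.fst NPC.Poly.id))
    (UPoly.add hm (UPoly.const 1)) (fun a => Nat.succ_pos _)

end poly

end Pool.Agent.H442R3.SP
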