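import Pool.Agent.H442R3.SD.Int

/-!
# The test modulo a prime, for polynomial matrices
-/

namespace Pool.Agent.H442R3.SP

open Finset

section

variable {n : ℕ} {κ : Type*}

/-- the matrix at a point -/
def MM (K : Finset κ) (c : κ → Fin n → Fin n → ℤ) (x : κ → ℤ) : Matrix (Fin n) (Fin n) ℤ :=
  fun i j => ∑ k ∈ K, x k * c k i j

/-- the test -/
def Tst (p : ℕ) (K : Finset κ) (c : κ → Fin n → Fin n → ℤ) (x : κ → ℤ) : Prop :=
  ∀ ψ : Fin n → ZMod p,
    (∀ k ∈ K, ∀ i, ∑ j, ((c k i j + c k j i : ℤ) : ZMod p) * ψ j = 0) →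
    (∀ i, ∑ k ∈ K, (x k : ZMod p) * ∑ j, ((c k i j - c k j i : ℤ) : ZMod p) * ψ j = 0) → ψ = 0

theorem test_of_det {p : ℕ} [hp : Fact p.Prime] (hp2 : p ≠ 2) (K : Finset κ)
    (c : κ → Fin n → Fin n → ℤ) (x : κ → ℤ) (h : ¬ (p : ℤ) ∣ (MM K c x).det) : Tst p K c x := by
  intro ψ h1 h2
  have hdet : ((MM K c x).map (Int.castRingHom (ZMod p))).det ≠ 0 := by
    rw [← RingHom.mapMatrix_apply, ← RingHom.map_det]
    intro h0
    exact h ((ZMod.intCast_zmod_eq_zero_iff_dvd _ p).1 h0)
  apply Matrix.eq_zero_of_mulVec_eq_zero hdet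
  funext i
  have h2' : (2 : ZMod p) ≠ 0 := by
    intro h0
    have h3 : ((2 : ℕ) : ZMod p) = 0 := by exact_mod_cast h0
    rw [ZMod.natCast_eq_zero_iff] at h3
    exact hp2 ((Nat.prime_dvd_prime_iff_eq hp.out Nat.prime_two).1 h3)
  have h3 : (2 : ZMod p) * (((MM K c x).map (Int.castRingHom (ZMod p))).mulVec ψ) i = 0 := by
    have e1 : ∑ k ∈ K, (x k : ZMod p) * ∑ j, ((c k i j + c k j i : ℤ) : ZMod p) * ψ j = 0 :=
      Finset.sum_eq_zero fun k hk => by rw [h1 k hk i, mul_zero]
    have e2 := h2 i
    have e3 : (2 : ZMod p) * (((MM K c x).map (Int.castRingHom (ZMod p))).mulVec ψ) i =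
        ∑ k ∈ K, (x k : ZMod p) * ∑ j, ((c k i j + c k j i : ℤ) : ZMod p) * ψ j +
        ∑ k ∈ K, (x k : ZMod p) * ∑ j, ((c k i j - c k j i : ℤ) : ZMod p) * ψ j := by
      rw [← Finset.sum_add_distrib]
      simp only [← mul_add, ← Finset.sum_add_distrib, ← add_mul]
      rw [Matrix.mulVec, dotProduct]
      simp only [Matrix.map_apply, MM, eq_intCast, Int.cast_sum, Int.cast_mul, Int.cast_add,
        Int.cast_sub]
      simp only [Finset.mul_sum, Finset.sum_mul]
      rw [Finset.sum_comm]
      apply Finset.sum_congr rfl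
      intro k _
      apply Finset.sum_congr rfl
      intro j _
      ring
    rw [e3, e1, e2, add_zero]
  exact (mul_eq_zero.1 h3).resolve_left h2'

/-- the test depends only on the values at the indices with a nonzero skew part -/
theorem Tst.congr {p : ℕ} {K : Finset κ} {c : κ → Fin n → Fin n → ℤ} {x y : κ → ℤ}
    (h : Tst p K c x) (hxy : ∀ k ∈ K, (∃ i j, c k i j ≠ c k j i) → (x k : ZMod p) = (y k : ZMod p)) :
    Tst p K c y := by
  intro ψ h1 h2
  refine h ψ h1 fun i => ?_
  rw [← h2 i]
  apply Finset.sum_congr rfl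
  intro k hk
  by_cases hs : ∃ i j, c k i j ≠ c k j i
  · rw [hxy k hk hs]
  · push Not at hs
    have : ∑ j, ((c k i j - c k j i : ℤ) : ZMod p) * ψ j = 0 := by
      apply Finset.sum_eq_zero
      intro j _
      rw [hs i j, sub_self, Int.cast_zero, zero_mul]
    rw [this, mul_zero, mul_zero]

theorem det_of_pos {p : ℕ} [hp : Fact p.Prime] (K : Finset κ) (c : κ → Fin n → Fin n → ℤ)
    (x x' : κ → ℤ) (hx' : ∀ k ∈ K, ((x' k : ℤ) : ZMod p) = (x k : ZMod p)) (h0 : ∀ k ∈ K, x' k ≠ 0)
    (hnn : ∀ k ∈ K, ∀ v : Fin n → ℤ, 0 ≤ x' k * ∑ i, ∑ j, v i * c k i j * v j)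
    (hT : Tst p K c x) : (MM K c x').det ≠ 0 := by
  classical
  have hpp : (0 : ℤ) < p := by exact_mod_cast hp.out.pos
  have hrad : ∀ v : Fin n → ℤ, (MM K c x').mulVec v = 0 → ∀ k ∈ K, ∀ a,
      ∑ j, (c k a j + c k j a) * v j = 0 := by
    intro v hv k hk a
    have h1 : ∑ k ∈ K, x' k * ∑ i, ∑ j, v i * c k i j * v j = 0 := by
      have h2 : dotProduct v ((MM K c x').mulVec v) = 0 := by rw [hv, dotProduct_zero]
      rw [← h2]
      simp only [dotProduct, Matrix.mulVec, MM, Finset.mul_sum, Finset.sum_mul]
      rw [Finset.sum_comm]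
      apply Finset.sum_congr rfl
      intro i _
      rw [Finset.sum_comm]
      apply Finset.sum_congr rfl
      intro j _
      apply Finset.sum_congr rfl
      intro k _
      ring
    have h3 := (Finset.sum_eq_zero_iff_of_nonneg (fun k hk => hnn k hk v)).1 h1 k hk
    have hsc : ∀ v : Fin n → ℤ, ∑ i, ∑ j, v i * (x' k * c k i j) * v j =
        x' k * ∑ i, ∑ j, v i * c k i j * v j := by
      intro v
      simp only [Finset.mul_sum]
      apply Finset.sum_congr rfl
      intro i _
      apply Finset.sum_congr rfl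
      intro j _
      ring
    have h6 := SD.radical_of_zero (fun i j => x' k * c k i j) (fun v => by
      rw [hsc]; exact hnn k hk v) v (by rw [hsc]; exact h3) a
    have h7 : ∑ j, (x' k * c k a j + x' k * c k j a) * v j =
        x' k * ∑ j, (c k a j + c k j a) * v j := by
      rw [Finset.mul_sum]
      apply Finset.sum_congr rfl
      intro j _
      ring
    rw [h7] at h6
    exact (mul_eq_zero.1 h6).resolve_left (h0 k hk)
  have hdvd : ∀ v : Fin n → ℤ, (MM K c x').mulVec v = 0 → ∀ i, (p : ℤ) ∣ v i := by
    intro v hv i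
    have hr := hrad v hv
    have h0 : (fun i => ((v i : ℤ) : ZMod p)) = 0 := by
      apply hT
      · intro k hk i
        have := congrArg (Int.cast : ℤ → ZMod p) (hr k hk i)
        rw [Int.cast_sum, Int.cast_zero] at this
        rw [← this]
        apply Finset.sum_congr rfl
        intro j _
        rw [Int.cast_mul]
      · intro i
        have h1 : ∑ k ∈ K, x' k * ∑ j, (c k i j - c k j i) * v j = 0 := by
          have h2 := congrFun hv i
          have h3 : ∑ k ∈ K, x' k * ∑ j, (c k i j + c k j i) * v j = 0 :=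
            Finset.sum_eq_zero fun k hk => by rw [hr k hk i, mul_zero]
          have h4 : ∑ k ∈ K, x' k * ∑ j, (c k i j - c k j i) * v j =
              2 * (MM K c x').mulVec v i - ∑ k ∈ K, x' k * ∑ j, (c k i j + c k j i) * v j := by
            rw [eq_sub_iff_add_eq, ← Finset.sum_add_distrib]
            simp only [← mul_add, ← Finset.sum_add_distrib, ← add_mul]
            rw [Matrix.mulVec, dotProduct]
            simp only [MM]
            simp only [Finset.mul_sum, Finset.sum_mul]
            rw [Finset.sum_comm]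
            apply Finset.sum_congr rfl
            intro j _
            apply Finset.sum_congr rfl
            intro k _
            ring
          rw [h4, h3, h2, Pi.zero_apply, mul_zero, sub_zero]
        have h5 := congrArg (Int.cast : ℤ → ZMod p) h1
        rw [Int.cast_sum, Int.cast_zero] at h5
        rw [← h5]
        apply Finset.sum_congr rfl
        intro k hk
        rw [Int.cast_mul, hx' k hk, Int.cast_sum]
        congr 1
        apply Finset.sum_congr rfl
        intro j _
        rw [Int.cast_mul]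
    exact (ZMod.intCast_zmod_eq_zero_iff_dvd _ p).1 (congrFun h0 i)
  have hpow : ∀ m : ℕ, ∀ v : Fin n → ℤ, (MM K c x').mulVec v = 0 → ∀ i, (p : ℤ) ^ m ∣ v i := by
    intro m
    induction m with
    | zero => intro v _ i; simp
    | succ m ih =>
      intro v hv i
      choose w hw using hdvd v hv
      have hvw : v = (p : ℤ) • w := by
        funext i
        rw [hw i]
        rfl
      have h1 : (MM K c x').mulVec w = 0 := by
        rw [hvw, Matrix.mulVec_smul] at hv
        exact (smul_eq_zero.1 hv).resolve_left hpp.ne'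
      rw [hw i, pow_succ, mul_comm]
      exact mul_dvd_mul_left _ (ih w h1 i)
  intro hdet
  obtain ⟨v, hv0, hv⟩ := Matrix.exists_mulVec_eq_zero_iff.2 hdet
  apply hv0
  funext i
  by_contra hne
  have h1 := hpow (v i).natAbs v hv i
  have h2 := Int.natAbs_dvd_natAbs.2 h1
  rw [Int.natAbs_pow, Int.natAbs_natCast] at h2
  have h3 := Nat.le_of_dvd (Int.natAbs_pos.2 hne) h2
  have h4 : (v i).natAbs < p ^ (v i).natAbs := Nat.lt_pow_self hp.out.one_lt
  omega

end

/-- the value of a monomial, given by the list of its variables -/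
def mon (z : ℕ → ℤ) (k : List ℕ) : ℤ := (k.map z).prod

theorem mon_update (z : ℕ → ℤ) (i : ℕ) (t : ℤ) (k : List ℕ) :
    mon (Function.update z i t) k = mon (Function.update z i 1) k * t ^ k.count i := by
  induction k with
  | nil => simp [mon]
  | cons a k ih =>
    rw [mon, mon] at *
    rw [List.map_cons, List.prod_cons, List.map_cons, List.prod_cons, ih, List.count_cons]
    by_cases h : a = i
    · subst h
      rw [Function.update_self, Function.update_self]
      simp only [beq_self_eq_true, if_true, pow_succ]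
      ring
    · rw [Function.update_of_ne h, Function.update_of_ne h]
      have : (a == i) = false := by simpa using h
      rw [this]
      simp only [Bool.false_eq_true, if_false, add_zero]
      ring

theorem natDegree_det_le {n : ℕ} (M : Matrix (Fin n) (Fin n) (Polynomial ℤ)) (d : ℕ)
    (hM : ∀ i j, (M i j).natDegree ≤ d) : M.det.natDegree ≤ n * d := by
  rw [Matrix.det_apply]
  refine Polynomial.natDegree_sum_le_of_forall_le _ _ fun g _ => ?_
  have h1 : (Equiv.Perm.sign g • ∏ i, M (g i) i).natDegree ≤ (∏ i, M (g i) i).natDegree := by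
    rcases Int.units_eq_one_or (Equiv.Perm.sign g) with sg | sg
    · rw [sg, one_smul]
    · rw [sg, Units.neg_smul, one_smul, Polynomial.natDegree_neg]
  refine h1.trans ((Polynomial.natDegree_prod_le _ _).trans ?_)
  refine (Finset.sum_le_card_nsmul _ _ d fun i _ => hM _ _).trans ?_
  simp

theorem exists_small {n : ℕ} (K : Finset (List ℕ)) (c : List ℕ → Fin n → Fin n → ℤ) (d : ℕ)
    (hd : ∀ k ∈ K, k.length ≤ d) (h : ∃ z, (MM K c (mon z)).det ≠ 0) (S : Finset ℕ) :
    ∃ z : ℕ → ℤ, (∀ i ∈ S, 0 ≤ z i ∧ z i ≤ n * d) ∧ (MM K c (mon z)).det ≠ 0 := by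
  classical
  induction S using Finset.induction_on with
  | empty =>
    obtain ⟨z, hz⟩ := h
    exact ⟨z, by simp, hz⟩
  | insert i S hi ih =>
    obtain ⟨z, hzS, hz⟩ := ih
    let Q : Matrix (Fin n) (Fin n) (Polynomial ℤ) := fun a b =>
      ∑ k ∈ K, Polynomial.C (mon (Function.update z i 1) k * c k a b) *
        Polynomial.X ^ k.count i
    have hev : ∀ t : ℤ, Q.det.eval t = (MM K c (mon (Function.update z i t))).det := by
      intro t
      rw [← Polynomial.coe_evalRingHom, RingHom.map_det]
      congr 1
      ext a b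
      rw [RingHom.mapMatrix_apply, Matrix.map_apply, Polynomial.coe_evalRingHom]
      simp only [Q, MM, Polynomial.eval_finset_sum, Polynomial.eval_mul, Polynomial.eval_C,
        Polynomial.eval_pow, Polynomial.eval_X]
      apply Finset.sum_congr rfl
      intro k _
      rw [mon_update z i t k]
      ring
    have hdeg : Q.det.natDegree ≤ n * d := by
      apply natDegree_det_le
      intro a b
      refine Polynomial.natDegree_sum_le_of_forall_le _ _ fun k hk => ?_
      refine (Polynomial.natDegree_C_mul_X_pow_le _ _).trans ?_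
      exact (List.count_le_length).trans (hd k hk)
    have hQ0 : Q.det ≠ 0 := by
      intro h0
      have := hev (z i)
      rw [h0, Polynomial.eval_zero, Function.update_eq_self] at this
      exact hz this.symm
    have : ∃ t ∈ (Finset.range (n * d + 1)).image (Nat.cast : ℕ → ℤ), Q.det.eval t ≠ 0 := by
      by_contra hcon
      push Not at hcon
      refine hQ0 (Polynomial.eq_zero_of_natDegree_lt_card_of_eval_eq_zero' _ _ hcon ?_)
      rw [Finset.card_image_of_injective _ Nat.cast_injective, Finset.card_range]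
      omega
    obtain ⟨t, ht, ht2⟩ := this
    rw [Finset.mem_image] at ht
    obtain ⟨m, hm, rfl⟩ := ht
    rw [Finset.mem_range] at hm
    refine ⟨Function.update z i m, fun l hl => ?_, by rw [← hev]; exact ht2⟩
    rcases eq_or_ne l i with rfl | hli
    · rw [Function.update_self]
      constructor
      · positivity
      · have : m ≤ n * d := by omega
        exact_mod_cast this
    · rw [Function.update_of_ne hli]
      exact hzS l ((Finset.mem_insert.1 hl).resolve_left hli)

end Pool.Agent.H442R3.SP
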