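import Pool.Agent.H442R3.SP.Enc
import Pool.Agent.H442R3.SP.Int
import Pool.Agent.H442R3.SD.Prm

/-!
# Bound for the determinant
-/

namespace Pool.Agent.H442R3.SP

open Pool.Agent.NPC

/-- coefficient matrices -/
def CC (I : List (List (List (ℤ × List ℕ)))) (k : List ℕ) (i j : Fin I.length) : ℤ := cof I k i j

/-- monomials -/
def KK (I : List (List (List (ℤ × List ℕ)))) : Finset (List ℕ) := (vrs I).toFinset

/-- variables -/
def VV (I : List (List (List (ℤ × List ℕ)))) : Finset ℕ := (vrs I).flatten.toFinset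

theorem mem_VV {I : List (List (List (ℤ × List ℕ)))} {k : List ℕ} (hk : k ∈ KK I) {i : ℕ}
    (hi : i ∈ k) : i ∈ VV I := by
  rw [VV, List.mem_toFinset, List.mem_flatten]
  exact ⟨k, List.mem_toFinset.1 hk, hi⟩

theorem KK_card (I : List (List (List (ℤ × List ℕ)))) : (KK I).card ≤ sz I :=
  (List.toFinset_card_le _).trans (vrs_len I)

theorem mon_abs (z : ℕ → ℤ) (B : ℤ) (hB : 0 ≤ B) (k : List ℕ) (h : ∀ i ∈ k, 0 ≤ z i ∧ z i ≤ B) :
    |mon z k| ≤ B ^ k.length := by
  induction k with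
  | nil => simp [mon]
  | cons a k ih =>
    have h1 := ih (fun i hi => h i (List.mem_cons_of_mem _ hi))
    have h2 := h a List.mem_cons_self
    rw [mon] at *
    rw [List.map_cons, List.prod_cons, abs_mul, List.length_cons, pow_succ, mul_comm]
    exact mul_le_mul h1 (by rw [abs_of_nonneg h2.1]; exact h2.2) (abs_nonneg _) (pow_nonneg hB _)

theorem det_bound (I : List (List (List (ℤ × List ℕ)))) (z : ℕ → ℤ)
    (hz : ∀ i ∈ VV I, 0 ≤ z i ∧ z i ≤ I.length * sz I) :
    (MM (KK I) (CC I) (mon z)).det.natAbs < 2 ^ (2 * sz I * sz I * sz I + 4 * sz I * sz I + 1) := by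
  set L := sz I with hL
  have hL1 : 1 ≤ L := sz_pos I
  have hn : I.length ≤ L := len_le_sz I
  have hLL : (L : ℤ) ≤ 2 ^ L := by exact_mod_cast Nat.lt_two_pow_self.le
  have hL0 : (0 : ℤ) ≤ L := by positivity
  have hL1' : (1 : ℤ) ≤ L := by exact_mod_cast hL1
  have hmon : ∀ k ∈ KK I, |mon z k| ≤ (2 : ℤ) ^ (2 * L * L) := by
    intro k hk
    have h1 : |mon z k| ≤ ((L : ℤ) * L) ^ k.length := by
      refine mon_abs z _ (by positivity) k fun i hi => ?_
      have h2 := hz i (mem_VV hk hi)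
      refine ⟨h2.1, h2.2.trans ?_⟩
      have : (I.length : ℤ) ≤ L := by exact_mod_cast hn
      exact mul_le_mul_of_nonneg_right this hL0
    refine h1.trans ?_
    have h3 : k.length ≤ L := vrs_sz I k (List.mem_toFinset.1 hk)
    have h4 : ((L : ℤ) * L) ^ k.length ≤ ((L : ℤ) * L) ^ L :=
      pow_le_pow_right₀ (by nlinarith) h3
    refine h4.trans ?_
    have h5 : ((L : ℤ) * L) ^ L ≤ (2 ^ L * 2 ^ L) ^ L := by gcongr
    refine h5.trans (le_of_eq ?_)
    rw [← pow_add, ← pow_mul]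
    congr 1
    ring
  have hent : ∀ i j, AbsoluteValue.abs (MM (KK I) (CC I) (mon z) i j) ≤
      (2 : ℤ) ^ (2 * L * L + 3 * L) := by
    intro i j
    rw [AbsoluteValue.abs_apply, MM]
    refine (Finset.abs_sum_le_sum_abs _ _).trans ?_
    have h1 : ∀ k ∈ KK I, |mon z k * CC I k i j| ≤ (2 : ℤ) ^ (2 * L * L) * (L * 2 ^ L) := by
      intro k hk
      rw [abs_mul]
      exact mul_le_mul (hmon k hk) (cof_abs I k i j) (abs_nonneg _) (by positivity)
    refine (Finset.sum_le_card_nsmul _ _ _ h1).trans ?_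
    rw [nsmul_eq_mul]
    have h4 : ((KK I).card : ℤ) ≤ L := by exact_mod_cast KK_card I
    have h5 : ((KK I).card : ℤ) * (2 ^ (2 * L * L) * (L * 2 ^ L)) ≤
        L * (2 ^ (2 * L * L) * (L * 2 ^ L)) := mul_le_mul_of_nonneg_right h4 (by positivity)
    refine h5.trans ?_
    have h6 : (2 : ℤ) ^ (2 * L * L + 3 * L) = 2 ^ L * (2 ^ (2 * L * L) * (2 ^ L * 2 ^ L)) := by
      rw [← pow_add, ← pow_add, ← pow_add]
      congr 1
      omega
    rw [h6]
    gcongr
  have hdet := Matrix.det_le (abv := (AbsoluteValue.abs : AbsoluteValue ℤ ℤ)) hent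
  rw [AbsoluteValue.abs_apply, Fintype.card_fin, nsmul_eq_mul, ← pow_mul] at hdet
  have h1 : ((I.length.factorial : ℕ) : ℤ) ≤ 2 ^ (L * L) := by
    have h2 : I.length.factorial ≤ I.length ^ I.length := Nat.factorial_le_pow _
    have h3 : I.length ^ I.length ≤ (2 ^ L) ^ I.length :=
      Nat.pow_le_pow_left (hn.trans Nat.lt_two_pow_self.le) _
    have h4 : (2 ^ L) ^ I.length ≤ (2 ^ L) ^ L := Nat.pow_le_pow_right (by positivity) hn
    rw [← pow_mul 2 L L] at h4
    exact_mod_cast (h2.trans h3).trans h4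
  have h2 : (2 : ℤ) ^ ((2 * L * L + 3 * L) * I.length) ≤ 2 ^ ((2 * L * L + 3 * L) * L) :=
    pow_le_pow_right₀ (by norm_num) (Nat.mul_le_mul_left _ hn)
  have h3 : |(MM (KK I) (CC I) (mon z)).det| ≤ 2 ^ (2 * L * L * L + 4 * L * L) := by
    refine hdet.trans ((mul_le_mul h1 h2 (by positivity) (by positivity)).trans ?_)
    rw [← pow_add]
    apply pow_le_pow_right₀ (by norm_num)
    have : L * L + (2 * L * L + 3 * L) * L = 2 * L * L * L + 4 * L * L := by ring
    omega
  have h4 : (MM (KK I) (CC I) (mon z)).det.natAbs ≤ 2 ^ (2 * L * L * L + 4 * L * L) := by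
    rw [Int.abs_eq_natAbs] at h3
    exact_mod_cast h3
  refine h4.trans_lt ?_
  exact Nat.pow_lt_pow_right (by norm_num) (by omega)

end Pool.Agent.H442R3.SP
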