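import Pool.Agent.H442R3.SP.Alg

/-!
# Bordered instances
-/

namespace Pool.Agent.H442R3.SP

open Pool.Agent.NPC Finset

/-- a number larger than all variables -/
def vb (I : List (List (List (ℤ × List ℕ)))) : ℕ := (vrs I).flatten.sum + 1

/-- variable of the off-diagonal block -/
def pv (B k a i : ℕ) : ℕ := B + 2 * (a * k + i)

/-- variable of the diagonal block -/
def yv (B i : ℕ) : ℕ := B + 2 * i + 1

/-- the bordered instance -/
def bord (I : List (List (List (ℤ × List ℕ)))) (B k : ℕ) (R Rk : List ℕ) :
    List (List (List (ℤ × List ℕ))) :=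
  R.map (fun a => R.map (fun j => ety I a j) ++ Rk.map (fun i => [((1 : ℤ), [pv B k a i])])) ++
    Rk.map (fun i => R.map (fun a => [((-1 : ℤ), [pv B k a i])]) ++
      Rk.map (fun j => bif decide (i = j) then [((1 : ℤ), [yv B i])] else []))

/-- the bordered instance with `k` new rows and columns -/
abbrev bd (I : List (List (List (ℤ × List ℕ)))) (k : ℕ) : List (List (List (ℤ × List ℕ))) :=
  bord I (vb I) k (List.range I.length) (List.range k)

theorem bd_length (I : List (List (List (ℤ × List ℕ)))) (k : ℕ) :
    (bd I k).length = I.length + k := by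
  simp [bd, bord]

theorem getD_map_app {α : Type} (n k : ℕ) (f g : ℕ → α) (d : α) (i : ℕ) :
    ((List.range n).map f ++ (List.range k).map g).getD i d =
      if i < n then f i else if i < n + k then g (i - n) else d := by
  rw [List.getD_eq_getElem?_getD, List.getElem?_append]
  simp only [List.length_map, List.length_range]
  split_ifs with h1 h2
  · simp [h1]
  · have : i - n < k := by omega
    simp [this]
  · rw [List.getElem?_eq_none (by simp; omega)]
    rfl

section

variable (I : List (List (List (ℤ × List ℕ)))) (k : ℕ)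

theorem ety_tt {i j : ℕ} (hi : i < I.length) (hj : j < I.length) :
    ety (bd I k) i j = ety I i j := by
  rw [ety, bd, bord, getD_map_app, if_pos hi, getD_map_app, if_pos hj]

theorem ety_tb {i j : ℕ} (hi : i < I.length) (hj : j < k) :
    ety (bd I k) i (I.length + j) = [((1 : ℤ), [pv (vb I) k i j])] := by
  rw [ety, bd, bord, getD_map_app, if_pos hi, getD_map_app, if_neg (by omega), if_pos (by omega),
    Nat.add_sub_cancel_left]

theorem ety_bt {i j : ℕ} (hi : i < k) (hj : j < I.length) :
    ety (bd I k) (I.length + i) j = [((-1 : ℤ), [pv (vb I) k j i])] := by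
  rw [ety, bd, bord, getD_map_app, if_neg (by omega), if_pos (by omega), getD_map_app, if_pos hj,
    Nat.add_sub_cancel_left]

theorem ety_bb {i j : ℕ} (hi : i < k) (hj : j < k) :
    ety (bd I k) (I.length + i) (I.length + j) =
      if i = j then [((1 : ℤ), [yv (vb I) i])] else [] := by
  rw [ety, bd, bord, getD_map_app, if_neg (by omega), if_pos (by omega), getD_map_app,
    if_neg (by omega), if_pos (by omega), Nat.add_sub_cancel_left, Nat.add_sub_cancel_left]
  by_cases h : i = j
  · rw [if_pos h, decide_eq_true h, cond_true]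
  · rw [if_neg h, decide_eq_false h, cond_false]

theorem cfl_single (c : ℤ) (m key : List ℕ) : cfl [(c, m)] key = if m = key then c else 0 := by
  rw [cfl_cons]
  simp [cfl]

theorem cof_tt (key : List ℕ) {i j : ℕ} (hi : i < I.length) (hj : j < I.length) :
    cof (bd I k) key i j = cof I key i j := by
  rw [cof, ety_tt I k hi hj, cof]

theorem cof_tb (key : List ℕ) {i j : ℕ} (hi : i < I.length) (hj : j < k) :
    cof (bd I k) key i (I.length + j) = if [pv (vb I) k i j] = key then 1 else 0 := by
  rw [cof, ety_tb I k hi hj, cfl_single]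

theorem cof_bt (key : List ℕ) {i j : ℕ} (hi : i < k) (hj : j < I.length) :
    cof (bd I k) key (I.length + i) j = if [pv (vb I) k j i] = key then -1 else 0 := by
  rw [cof, ety_bt I k hi hj, cfl_single]

theorem cof_bb (key : List ℕ) {i j : ℕ} (hi : i < k) (hj : j < k) :
    cof (bd I k) key (I.length + i) (I.length + j) =
      if i = j ∧ [yv (vb I) i] = key then 1 else 0 := by
  rw [cof, ety_bb I k hi hj]
  by_cases h : i = j
  · rw [if_pos h, cfl_single]
    simp [h]
  · rw [if_neg h, if_neg (fun h' => h h'.1)]
    rfl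

theorem lt_vb {key : List ℕ} (hk : key ∈ vrs I) {i : ℕ} (hi : i ∈ key) : i < vb I := by
  rw [vb, Nat.lt_succ_iff]
  exact List.single_le_sum (by simp) _ (List.mem_flatten.2 ⟨key, hk, hi⟩)

theorem le_pv (B k a i : ℕ) : B ≤ pv B k a i := Nat.le_add_right _ _

theorem pv_inj {B k a i a' i' : ℕ} (hi : i < k) (hi' : i' < k) (h : pv B k a i = pv B k a' i') :
    a = a' ∧ i = i' := by
  have h1 : a * k + i = a' * k + i' := by
    rw [pv, pv] at h
    omega
  have h2 : (a * k + i) / k = a := by
    rw [mul_comm, Nat.mul_add_div (by omega), Nat.div_eq_of_lt hi, add_zero]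
  have h3 : (a' * k + i') / k = a' := by
    rw [mul_comm, Nat.mul_add_div (by omega), Nat.div_eq_of_lt hi', add_zero]
  have h4 : a = a' := by rw [← h2, ← h3, h1]
  subst h4
  exact ⟨rfl, by omega⟩

theorem pv_ne_yv (B k a i j : ℕ) : pv B k a i ≠ yv B j := by
  rw [pv, yv]
  omega

theorem pv_notMem (a i : ℕ) : [pv (vb I) k a i] ∉ vrs I := by
  intro h
  have h1 := lt_vb I h (List.mem_singleton.2 rfl)
  have h2 := le_pv (vb I) k a i
  omega

theorem yv_notMem (i : ℕ) : [yv (vb I) i] ∉ vrs I := by
  intro h
  have h1 := lt_vb I h (List.mem_singleton.2 rfl)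
  rw [yv] at h1
  omega

/-- the coefficient matrices of the bordered instance -/
def c2 (key : List ℕ) (i j : Fin (I.length + k)) : ℤ := cof (bd I k) key i j

theorem c2_tt (key : List ℕ) (i j : Fin I.length) :
    c2 I k key (Fin.castAdd k i) (Fin.castAdd k j) = cof I key i j := cof_tt I k key i.2 j.2

theorem c2_tb (key : List ℕ) (i : Fin I.length) (j : Fin k) :
    c2 I k key (Fin.castAdd k i) (Fin.natAdd I.length j) =
      if [pv (vb I) k i j] = key then 1 else 0 := cof_tb I k key i.2 j.2

theorem c2_bt (key : List ℕ) (i : Fin k) (j : Fin I.length) :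
    c2 I k key (Fin.natAdd I.length i) (Fin.castAdd k j) =
      if [pv (vb I) k j i] = key then -1 else 0 := cof_bt I k key i.2 j.2

theorem c2_bb (key : List ℕ) (i j : Fin k) :
    c2 I k key (Fin.natAdd I.length i) (Fin.natAdd I.length j) =
      if (i : ℕ) = j ∧ [yv (vb I) i] = key then 1 else 0 := cof_bb I k key i.2 j.2

/-- the quadratic form of the bordered instance -/
theorem form_bd (key : List ℕ) (w : Fin (I.length + k) → ℤ) :
    ∑ i, ∑ j, w i * c2 I k key i j * w j =
      ∑ i : Fin I.length, ∑ j : Fin I.length, w (Fin.castAdd k i) * cof I key i j *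
        w (Fin.castAdd k j) +
      ∑ i : Fin k, if [yv (vb I) i] = key then w (Fin.natAdd I.length i) *
        w (Fin.natAdd I.length i) else 0 := by
  simp only [Fin.sum_univ_add, c2_tt, c2_tb, c2_bt, c2_bb]
  rw [Finset.sum_add_distrib, Finset.sum_add_distrib]
  have e1 : ∑ i : Fin k, ∑ j : Fin I.length, w (Fin.natAdd I.length i) *
      (if [pv (vb I) k j i] = key then -1 else 0) * w (Fin.castAdd k j) =
      - ∑ i : Fin I.length, ∑ j : Fin k, w (Fin.castAdd k i) *
      (if [pv (vb I) k i j] = key then 1 else 0) * w (Fin.natAdd I.length j) := by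
    rw [Finset.sum_comm, ← Finset.sum_neg_distrib]
    apply Finset.sum_congr rfl
    intro i _
    rw [← Finset.sum_neg_distrib]
    apply Finset.sum_congr rfl
    intro j _
    split_ifs <;> ring
  have e2 : ∑ i : Fin k, ∑ j : Fin k, w (Fin.natAdd I.length i) *
      (if (i : ℕ) = j ∧ [yv (vb I) i] = key then 1 else 0) * w (Fin.natAdd I.length j) =
      ∑ i : Fin k, if [yv (vb I) i] = key then w (Fin.natAdd I.length i) *
        w (Fin.natAdd I.length i) else 0 := by
    apply Finset.sum_congr rfl
    intro i _
    rw [Finset.sum_eq_single i]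
    · by_cases h : [yv (vb I) i] = key
      · rw [if_pos ⟨rfl, h⟩, if_pos h, mul_one]
      · rw [if_neg (fun h' => h h'.2), if_neg h, mul_zero, zero_mul]
    · intro j _ hj
      rw [if_neg (fun h' => hj (Fin.ext h'.1.symm)), mul_zero, zero_mul]
    · intro h
      exact absurd (Finset.mem_univ _) h
  rw [e1, e2]
  ring

theorem mem_vrs_bd {key : List ℕ} (h : key ∈ vrs (bd I k)) : key ∈ vrs I ∨
    (∃ a < I.length, ∃ i < k, key = [pv (vb I) k a i]) ∨ ∃ i < k, key = [yv (vb I) i] := by
  rw [vrs, List.mem_flatMap] at h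
  obtain ⟨r, hr, h⟩ := h
  rw [List.mem_flatMap] at h
  obtain ⟨e, he, h⟩ := h
  obtain ⟨q, hq, rfl⟩ := List.mem_map.1 h
  rw [bd, bord, List.mem_append, List.mem_map, List.mem_map] at hr
  rcases hr with ⟨a, ha, rfl⟩ | ⟨i, hi, rfl⟩
  · rw [List.mem_append, List.mem_map, List.mem_map] at he
    rcases he with ⟨j, hj, rfl⟩ | ⟨i, hi, rfl⟩
    · exact Or.inl (mem_vrs hq)
    · rw [List.mem_singleton] at hq
      subst hq
      exact Or.inr (Or.inl ⟨a, List.mem_range.1 ha, i, List.mem_range.1 hi, rfl⟩)
  · rw [List.mem_append, List.mem_map, List.mem_map] at he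
    rcases he with ⟨a, ha, rfl⟩ | ⟨j, hj, rfl⟩
    · rw [List.mem_singleton] at hq
      subst hq
      exact Or.inr (Or.inl ⟨a, List.mem_range.1 ha, i, List.mem_range.1 hi, rfl⟩)
    · by_cases hij : i = j
      · rw [decide_eq_true hij, cond_true, List.mem_singleton] at hq
        subst hq
        exact Or.inr (Or.inr ⟨i, List.mem_range.1 hi, rfl⟩)
      · rw [decide_eq_false hij, cond_false] at hq
        exact absurd hq (by simp)

theorem skw_bd {key : List ℕ} (h : Skw (c2 I k) key) : (key ∈ vrs I ∧ Skw (CC I) key) ∨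
    (∃ a < I.length, ∃ i < k, key = [pv (vb I) k a i]) := by
  obtain ⟨i, j, h⟩ := h
  by_cases hex : ∃ a < I.length, ∃ i < k, key = [pv (vb I) k a i]
  · exact Or.inr hex
  left
  push Not at hex
  have hne : ∀ (a : Fin I.length) (i : Fin k), [pv (vb I) k a i] ≠ key :=
    fun a i h' => hex a a.2 i i.2 h'.symm
  induction i using Fin.addCases with
  | left i =>
    induction j using Fin.addCases with
    | left j =>
      rw [c2_tt, c2_tt] at h
      refine ⟨?_, i, j, h⟩
      by_contra hk
      rw [cof_eq_zero I key hk, cof_eq_zero I key hk] at h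
      exact h rfl
    | right j => rw [c2_tb, c2_bt, if_neg (hne i j), if_neg (hne i j)] at h; exact absurd rfl h
  | right i =>
    induction j using Fin.addCases with
    | left j => rw [c2_tb, c2_bt, if_neg (hne j i), if_neg (hne j i)] at h; exact absurd rfl h
    | right j =>
      exfalso
      rw [c2_bb, c2_bb] at h
      apply h
      by_cases hij : (i : ℕ) = j
      · rw [hij]
      · rw [if_neg (fun h' => hij h'.1), if_neg (fun h' => hij h'.1.symm)]

theorem cls_bd (hs : Cls (KK I) (CC I)) : Cls (KK (bd I k)) (c2 I k) := by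
  obtain ⟨⟨ε, hε, hnn⟩, v, hv⟩ := hs
  constructor
  · refine ⟨fun i => if i < vb I then ε i else 1, fun i => ?_, fun key _ w => ?_⟩
    · dsimp only
      split_ifs
      · exact hε i
      · exact Or.inl rfl
    · rw [form_bd, mul_add]
      refine add_nonneg ?_ ?_
      · by_cases hk : key ∈ vrs I
        · have h1 : mon (fun i => if i < vb I then ε i else 1) key = mon ε key := by
            rw [mon, mon]
            congr 1
            apply List.map_congr_left
            intro i hi
            rw [if_pos (lt_vb I hk hi)]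
          rw [h1]
          exact hnn key (List.mem_toFinset.2 hk) (fun i => w (Fin.castAdd k i))
        · simp only [cof_eq_zero I key hk, mul_zero, zero_mul, Finset.sum_const_zero, le_refl]
      · rw [Finset.mul_sum]
        apply Finset.sum_nonneg
        intro i _
        split_ifs with h
        · rw [← h, mon, List.map_singleton, List.prod_singleton, if_neg (by rw [yv]; omega), one_mul]
          exact mul_self_nonneg _
        · rw [mul_zero]
  · refine ⟨fun key => if key ∈ vrs I then v key else key.headD 0, fun key _ hsk => ?_⟩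
    rcases skw_bd I k hsk with ⟨hk, hsk'⟩ | ⟨a, ha, i, hi, rfl⟩
    · dsimp only
      rw [if_pos hk]
      obtain ⟨h1, h2⟩ := hv key (List.mem_toFinset.2 hk) hsk'
      refine ⟨h1, fun key' _ hsk2 hne => ?_⟩
      rcases skw_bd I k hsk2 with ⟨hk2, hsk2'⟩ | ⟨a, ha, i, hi, rfl⟩
      · exact h2 key' (List.mem_toFinset.2 hk2) hsk2' hne
      · intro hmem
        rw [List.mem_singleton] at hmem
        have h3 : v key ∈ key := by
          rw [← List.count_pos_iff, h1]
          exact one_pos
        have h4 := lt_vb I hk h3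
        have h5 := le_pv (vb I) k a i
        omega
    · dsimp only
      rw [if_neg (pv_notMem I k a i)]
      refine ⟨by simp, fun key' _ hsk2 hne => ?_⟩
      rcases skw_bd I k hsk2 with ⟨hk2, hsk2'⟩ | ⟨a', ha', i', hi', rfl⟩
      · intro hmem
        have h4 := lt_vb I hk2 hmem
        have h5 := le_pv (vb I) k a i
        simp only [List.headD_cons] at h4
        omega
      · intro hmem
        simp only [List.headD_cons, List.mem_singleton] at hmem
        obtain ⟨rfl, rfl⟩ := pv_inj hi hi' hmem
        exact hne rfl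

end

end Pool.Agent.H442R3.SP
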