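import Pool.Agent.H442R3.SP.Brd

/-!
# The class is closed under bordering; the test for bordered instances
-/

namespace Pool.Agent.H442R3.SP

open Pool.Agent.NPC Finset

section

variable (I : List (List (List (ℤ × List ℕ)))) (k : ℕ)

theorem pf_bd (hPf : Pf I) : Pf (bd I k) := by
  intro key i j a b hi hj ha hb
  rw [bd_length] at hi hj ha hb
  by_cases hk : key ∈ vrs I
  · have hne1 : ∀ a i, [pv (vb I) k a i] ≠ key := fun a i h => pv_notMem I k a i (h ▸ hk)
    have hne2 : ∀ i, [yv (vb I) i] ≠ key := fun i h => yv_notMem I i (h ▸ hk)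
    have hz : ∀ x y, x < I.length + k → y < I.length + k → ¬ (x < I.length ∧ y < I.length) →
        cof (bd I k) key x y = 0 := by
      intro x y hx hy hxy
      by_cases h1 : x < I.length
      · have h2 : ¬ y < I.length := fun h => hxy ⟨h1, h⟩
        obtain ⟨y', rfl⟩ := Nat.exists_eq_add_of_le (not_lt.1 h2)
        rw [cof_tb I k key h1 (by omega), if_neg (hne1 _ _)]
      · obtain ⟨x', rfl⟩ := Nat.exists_eq_add_of_le (not_lt.1 h1)
        by_cases h2 : y < I.length
        · rw [cof_bt I k key (by omega) h2, if_neg (hne1 _ _)]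
        · obtain ⟨y', rfl⟩ := Nat.exists_eq_add_of_le (not_lt.1 h2)
          rw [cof_bb I k key (by omega) (by omega), if_neg (fun h => hne2 _ h.2)]
    by_cases h1 : i < I.length
    · by_cases h2 : j < I.length
      · by_cases h3 : a < I.length
        · by_cases h4 : b < I.length
          · simp only [cof_tt I k key h1 h2, cof_tt I k key h2 h1, cof_tt I k key h3 h4,
              cof_tt I k key h4 h3, cof_tt I k key h1 h3, cof_tt I k key h3 h1,
              cof_tt I k key h2 h4, cof_tt I k key h4 h2, cof_tt I k key h1 h4,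
              cof_tt I k key h4 h1, cof_tt I k key h2 h3, cof_tt I k key h3 h2]
            exact hPf key i j a b h1 h2 h3 h4
          · rw [hz a b ha hb (fun h => h4 h.2), hz b a hb ha (fun h => h4 h.1),
              hz j b hj hb (fun h => h4 h.2), hz b j hb hj (fun h => h4 h.1),
              hz i b hi hb (fun h => h4 h.2), hz b i hb hi (fun h => h4 h.1)]
            ring
        · rw [hz a b ha hb (fun h => h3 h.1), hz b a hb ha (fun h => h3 h.2),
            hz i a hi ha (fun h => h3 h.2), hz a i ha hi (fun h => h3 h.1),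
            hz j a hj ha (fun h => h3 h.2), hz a j ha hj (fun h => h3 h.1)]
          ring
      · rw [hz i j hi hj (fun h => h2 h.2), hz j i hj hi (fun h => h2 h.1),
          hz j b hj hb (fun h => h2 h.1), hz b j hb hj (fun h => h2 h.2),
          hz j a hj ha (fun h => h2 h.1), hz a j ha hj (fun h => h2 h.2)]
        ring
    · rw [hz i j hi hj (fun h => h1 h.1), hz j i hj hi (fun h => h1 h.2),
        hz i a hi ha (fun h => h1 h.1), hz a i ha hi (fun h => h1 h.2),
        hz i b hi hb (fun h => h1 h.1), hz b i hb hi (fun h => h1 h.2)]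
      ring
  · by_cases hex : ∃ a0 < I.length, ∃ i0 < k, key = [pv (vb I) k a0 i0]
    · obtain ⟨a0, ha0, i0, hi0, rfl⟩ := hex
      have hd : ∀ x y, x < I.length + k → y < I.length + k →
          cof (bd I k) [pv (vb I) k a0 i0] x y - cof (bd I k) [pv (vb I) k a0 i0] y x =
          2 * ((if x = a0 then 1 else 0) * (if y = I.length + i0 then 1 else 0) -
            (if x = I.length + i0 then 1 else 0) * (if y = a0 then 1 else 0)) := by
        intro x y hx hy
        have hiff : ∀ u v, v < k → ([pv (vb I) k u v] = [pv (vb I) k a0 i0] ↔ u = a0 ∧ v = i0) := by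
          intro u v hv
          constructor
          · intro h
            exact pv_inj hv hi0 (List.cons.inj h).1
          · rintro ⟨rfl, rfl⟩
            rfl
        have hyv : ∀ v, [yv (vb I) v] ≠ [pv (vb I) k a0 i0] := fun v h =>
          pv_ne_yv _ _ _ _ _ (List.cons.inj h).1.symm
        by_cases h1 : x < I.length
        · by_cases h2 : y < I.length
          · rw [cof_tt I k _ h1 h2, cof_tt I k _ h2 h1, cof_eq_zero I _ hk, cof_eq_zero I _ hk,
              if_neg (show ¬ y = I.length + i0 by omega), if_neg (show ¬ x = I.length + i0 by omega)]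
            ring
          · obtain ⟨y', rfl⟩ := Nat.exists_eq_add_of_le (not_lt.1 h2)
            rw [cof_tb I k _ h1 (by omega), cof_bt I k _ (by omega) h1,
              if_neg (show ¬ x = I.length + i0 by omega)]
            simp only [hiff x y' (by omega), Nat.add_left_cancel_iff]
            by_cases e1 : x = a0 <;> by_cases e2 : y' = i0 <;> simp [e1, e2]
        · obtain ⟨x', rfl⟩ := Nat.exists_eq_add_of_le (not_lt.1 h1)
          by_cases h2 : y < I.length
          · rw [cof_bt I k _ (by omega) h2, cof_tb I k _ h2 (by omega),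
              if_neg (show ¬ y = I.length + i0 by omega)]
            simp only [hiff y x' (by omega), Nat.add_left_cancel_iff]
            by_cases e1 : y = a0 <;> by_cases e2 : x' = i0 <;> simp [e1, e2]
          · obtain ⟨y', rfl⟩ := Nat.exists_eq_add_of_le (not_lt.1 h2)
            rw [cof_bb I k _ (by omega) (by omega), cof_bb I k _ (by omega) (by omega),
              if_neg (fun h => hyv _ h.2), if_neg (fun h => hyv _ h.2),
              if_neg (show ¬ I.length + x' = a0 by omega),
              if_neg (show ¬ I.length + y' = a0 by omega)]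
            ring
      rw [hd i j hi hj, hd a b ha hb, hd i a hi ha, hd j b hj hb, hd i b hi hb, hd j a hj ha]
      ring
    · push Not at hex
      have hne : ∀ a i, a < I.length → i < k → [pv (vb I) k a i] ≠ key :=
        fun a i ha hi h' => hex a ha i hi h'.symm
      have hd : ∀ x y, x < I.length + k → y < I.length + k →
          cof (bd I k) key x y - cof (bd I k) key y x = 0 := by
        intro x y hx hy
        by_cases h1 : x < I.length
        · by_cases h2 : y < I.length
          · rw [cof_tt I k _ h1 h2, cof_tt I k _ h2 h1, cof_eq_zero I _ hk, cof_eq_zero I _ hk,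
              sub_self]
          · obtain ⟨y', rfl⟩ := Nat.exists_eq_add_of_le (not_lt.1 h2)
            rw [cof_tb I k _ h1 (by omega), cof_bt I k _ (by omega) h1,
              if_neg (hne _ _ h1 (by omega)), if_neg (hne _ _ h1 (by omega)), sub_self]
        · obtain ⟨x', rfl⟩ := Nat.exists_eq_add_of_le (not_lt.1 h1)
          by_cases h2 : y < I.length
          · rw [cof_bt I k _ (by omega) h2, cof_tb I k _ h2 (by omega),
              if_neg (hne _ _ h2 (by omega)), if_neg (hne _ _ h2 (by omega)), sub_self]
          · obtain ⟨y', rfl⟩ := Nat.exists_eq_add_of_le (not_lt.1 h2)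
            rw [cof_bb I k _ (by omega) (by omega), cof_bb I k _ (by omega) (by omega)]
            by_cases e : x' = y'
            · rw [e, sub_self]
            · rw [if_neg (fun h => e h.1), if_neg (fun h => e h.1.symm), sub_self]
      rw [hd i j hi hj, hd i a hi ha, hd i b hi hb]
      ring

theorem pv_mem {a i : ℕ} (ha : a < I.length) (hi : i < k) : [pv (vb I) k a i] ∈ vrs (bd I k) := by
  have h : ((1 : ℤ), [pv (vb I) k a i]) ∈ ety (bd I k) a (I.length + i) := by
    rw [ety_tb I k ha hi]
    exact List.mem_singleton.2 rfl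
  exact mem_vrs h

theorem yv_mem {i : ℕ} (hi : i < k) : [yv (vb I) i] ∈ vrs (bd I k) := by
  have h : ((1 : ℤ), [yv (vb I) i]) ∈ ety (bd I k) (I.length + i) (I.length + i) := by
    rw [ety_bb I k hi hi, if_pos rfl]
    exact List.mem_singleton.2 rfl
  exact mem_vrs h

theorem cof_zero_of_notMem {key : List ℕ} (h : key ∉ vrs (bd I k)) {i j : ℕ} (hi : i < I.length)
    (hj : j < I.length) : cof I key i j = 0 := by
  rw [← cof_tt I k key hi hj]
  exact cof_eq_zero _ _ h _ _

/-- the point of the bordered instance -/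
def XX (z : ℕ → ℤ) (W : Fin k → Fin I.length → ℤ) (key : List ℕ) : ℤ :=
  (if key ∈ vrs I then mon z key else 0) +
    ∑ a : Fin I.length, ∑ i : Fin k, if [pv (vb I) k a i] = key then W i a else 0

theorem XX_old (z : ℕ → ℤ) (W : Fin k → Fin I.length → ℤ) {key : List ℕ} (h : key ∈ vrs I) :
    XX I k z W key = mon z key := by
  rw [XX, if_pos h, add_eq_left]
  apply Finset.sum_eq_zero
  intro a _
  apply Finset.sum_eq_zero
  intro i _
  rw [if_neg]
  intro h'
  exact pv_notMem I k a i (by rw [h']; exact h)

theorem XX_new (z : ℕ → ℤ) (W : Fin k → Fin I.length → ℤ) (a : Fin I.length) (i : Fin k) :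
    XX I k z W [pv (vb I) k a i] = W i a := by
  rw [XX, if_neg (pv_notMem I k a i), zero_add, Finset.sum_eq_single a, Finset.sum_eq_single i,
    if_pos rfl]
  · intro j _ hj
    rw [if_neg]
    intro h
    exact hj (Fin.ext (pv_inj j.2 i.2 (List.cons.inj h).1).2)
  · intro h
    exact absurd (Finset.mem_univ _) h
  · intro b _ hb
    apply Finset.sum_eq_zero
    intro j _
    rw [if_neg]
    intro h
    exact hb (Fin.ext (pv_inj j.2 i.2 (List.cons.inj h).1).1)
  · intro h
    exact absurd (Finset.mem_univ _) h

theorem tst_bd {p : ℕ} [hp : Fact p.Prime] (hp2 : p ≠ 2) (z : ℕ → ℤ) (c0 : ℤ)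
    (U W : Fin k → Fin I.length → ℤ)
    (hΔ : ¬ (p : ℤ) ∣ (c0 • MM (KK I) (CC I) (mon z) +
      ∑ i, Matrix.vecMulVec (U i) (W i)).det) :
    Tst p (KK (bd I k)) (c2 I k) (XX I k z W) := by
  have h2' : (2 : ZMod p) ≠ 0 := by
    intro h0
    have h3 : ((2 : ℕ) : ZMod p) = 0 := by exact_mod_cast h0
    rw [ZMod.natCast_eq_zero_iff] at h3
    exact hp2 ((Nat.prime_dvd_prime_iff_eq hp.out Nat.prime_two).1 h3)
  intro Ψ h1 h2
  -- the new coordinates vanish
  have hω : ∀ i : Fin k, Ψ (Fin.natAdd I.length i) = 0 := by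
    intro i
    have h3 := h1 _ (List.mem_toFinset.2 (yv_mem I k i.2)) (Fin.natAdd I.length i)
    rw [Fin.sum_univ_add] at h3
    have e1 : ∑ j : Fin I.length, ((c2 I k [yv (vb I) i] (Fin.natAdd I.length i) (Fin.castAdd k j) +
        c2 I k [yv (vb I) i] (Fin.castAdd k j) (Fin.natAdd I.length i) : ℤ) : ZMod p) *
        Ψ (Fin.castAdd k j) = 0 := by
      apply Finset.sum_eq_zero
      intro j _
      have hne : [pv (vb I) k j i] ≠ [yv (vb I) i] := fun h => pv_ne_yv _ _ _ _ _ (List.cons.inj h).1
      rw [c2_bt, c2_tb, if_neg hne, if_neg hne]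
      simp
    rw [e1, zero_add, Finset.sum_eq_single i] at h3
    · rw [c2_bb, if_pos ⟨rfl, rfl⟩] at h3
      have h4 : (2 : ZMod p) * Ψ (Fin.natAdd I.length i) = 0 := by
        rw [← h3]
        push_cast
        ring
      exact (mul_eq_zero.1 h4).resolve_left h2'
    · intro j _ hj
      rw [c2_bb, c2_bb, if_neg (fun h => hj (Fin.ext h.1.symm)), if_neg (fun h => hj (Fin.ext h.1))]
      simp
    · intro h
      exact absurd (Finset.mem_univ _) h
  set ψ : Fin I.length → ZMod p := fun j => Ψ (Fin.castAdd k j) with hψ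
  have hS : ∀ key ∈ KK I, ∀ a : Fin I.length,
      ∑ j, ((CC I key a j + CC I key j a : ℤ) : ZMod p) * ψ j = 0 := by
    intro key _ a
    by_cases hk : key ∈ vrs (bd I k)
    · have h3 := h1 key (List.mem_toFinset.2 hk) (Fin.castAdd k a)
      rw [Fin.sum_univ_add] at h3
      have e1 : ∑ j : Fin k, ((c2 I k key (Fin.castAdd k a) (Fin.natAdd I.length j) +
          c2 I k key (Fin.natAdd I.length j) (Fin.castAdd k a) : ℤ) : ZMod p) *
          Ψ (Fin.natAdd I.length j) = 0 :=
        Finset.sum_eq_zero fun j _ => by rw [hω, mul_zero]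
      rw [e1, add_zero] at h3
      rw [← h3]
      apply Finset.sum_congr rfl
      intro j _
      rw [c2_tt, c2_tt]
      rfl
    · apply Finset.sum_eq_zero
      intro j _
      rw [CC, CC, cof_zero_of_notMem I k hk a.2 j.2, cof_zero_of_notMem I k hk j.2 a.2]
      simp
  have hD : ∀ a : Fin I.length, ∑ key ∈ KK I, (mon z key : ZMod p) *
      ∑ j, ((CC I key a j - CC I key j a : ℤ) : ZMod p) * ψ j = 0 := by
    intro a
    have h3 := h2 (Fin.castAdd k a)
    have e1 : ∀ key ∈ KK (bd I k), (XX I k z W key : ZMod p) *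
        ∑ j, ((c2 I k key (Fin.castAdd k a) j - c2 I k key j (Fin.castAdd k a) : ℤ) : ZMod p) * Ψ j =
        (mon z key : ZMod p) * ∑ j, ((CC I key a j - CC I key j a : ℤ) : ZMod p) * ψ j := by
      intro key _
      rw [Fin.sum_univ_add]
      have e2 : ∑ j : Fin k, ((c2 I k key (Fin.castAdd k a) (Fin.natAdd I.length j) -
          c2 I k key (Fin.natAdd I.length j) (Fin.castAdd k a) : ℤ) : ZMod p) *
          Ψ (Fin.natAdd I.length j) = 0 :=
        Finset.sum_eq_zero fun j _ => by rw [hω, mul_zero]
      rw [e2, add_zero]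
      have e3 : ∑ j : Fin I.length, ((c2 I k key (Fin.castAdd k a) (Fin.castAdd k j) -
          c2 I k key (Fin.castAdd k j) (Fin.castAdd k a) : ℤ) : ZMod p) * Ψ (Fin.castAdd k j) =
          ∑ j, ((CC I key a j - CC I key j a : ℤ) : ZMod p) * ψ j := by
        apply Finset.sum_congr rfl
        intro j _
        rw [c2_tt, c2_tt]
        rfl
      rw [e3]
      by_cases hk : key ∈ vrs I
      · rw [XX_old I k z W hk]
      · have e4 : ∑ j, ((CC I key a j - CC I key j a : ℤ) : ZMod p) * ψ j = 0 := by
          apply Finset.sum_eq_zero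
          intro j _
          rw [CC, CC, cof_eq_zero I key hk, cof_eq_zero I key hk]
          simp
        rw [e4, mul_zero, mul_zero]
    rw [Finset.sum_congr rfl e1] at h3
    have hz1 : ∀ key, key ∉ KK I → (mon z key : ZMod p) *
        ∑ j, ((CC I key a j - CC I key j a : ℤ) : ZMod p) * ψ j = 0 := by
      intro key hk
      have hk' : key ∉ vrs I := fun h => hk (List.mem_toFinset.2 h)
      rw [Finset.sum_eq_zero, mul_zero]
      intro j _
      rw [CC, CC, cof_eq_zero I key hk', cof_eq_zero I key hk']
      simp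
    have hz2 : ∀ key, key ∉ KK (bd I k) → (mon z key : ZMod p) *
        ∑ j, ((CC I key a j - CC I key j a : ℤ) : ZMod p) * ψ j = 0 := by
      intro key hk
      have hk' : key ∉ vrs (bd I k) := fun h => hk (List.mem_toFinset.2 h)
      rw [Finset.sum_eq_zero, mul_zero]
      intro j _
      rw [CC, CC, cof_zero_of_notMem I k hk' a.2 j.2, cof_zero_of_notMem I k hk' j.2 a.2]
      simp
    rw [Finset.sum_subset (Finset.subset_union_left (s₂ := KK (bd I k))) (fun key _ h => hz1 key h)]
    rw [Finset.sum_subset (Finset.subset_union_right (s₁ := KK I)) (fun key _ h => hz2 key h)] at h3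
    exact h3
  have hW : ∀ i : Fin k, ∑ a, ((W i a : ℤ) : ZMod p) * ψ a = 0 := by
    intro i
    have h3 := h2 (Fin.natAdd I.length i)
    have e1 : ∀ key ∈ KK (bd I k), (XX I k z W key : ZMod p) *
        ∑ j, ((c2 I k key (Fin.natAdd I.length i) j - c2 I k key j (Fin.natAdd I.length i) : ℤ) :
          ZMod p) * Ψ j =
        ∑ a : Fin I.length, if [pv (vb I) k a i] = key then -2 * (((W i a : ℤ) : ZMod p) * ψ a)
          else 0 := by
      intro key _
      rw [Fin.sum_univ_add]
      have e2 : ∑ j : Fin k, ((c2 I k key (Fin.natAdd I.length i) (Fin.natAdd I.length j) -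
          c2 I k key (Fin.natAdd I.length j) (Fin.natAdd I.length i) : ℤ) : ZMod p) *
          Ψ (Fin.natAdd I.length j) = 0 :=
        Finset.sum_eq_zero fun j _ => by rw [hω, mul_zero]
      rw [e2, add_zero, Finset.mul_sum]
      apply Finset.sum_congr rfl
      intro a _
      rw [c2_bt, c2_tb]
      by_cases h : [pv (vb I) k a i] = key
      · rw [if_pos h, if_pos h, if_pos h, ← h, XX_new]
        push_cast
        ring
      · rw [if_neg h, if_neg h, if_neg h]
        simp
    rw [Finset.sum_congr rfl e1, Finset.sum_comm] at h3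
    have e5 : ∀ a : Fin I.length, (∑ key ∈ KK (bd I k), if [pv (vb I) k a i] = key then
        -2 * (((W i a : ℤ) : ZMod p) * ψ a) else 0) = -2 * (((W i a : ℤ) : ZMod p) * ψ a) := by
      intro a
      have hm : [pv (vb I) k a i] ∈ KK (bd I k) := List.mem_toFinset.2 (pv_mem I k a.2 i.2)
      rw [Finset.sum_ite_eq, if_pos hm]
    simp only [e5] at h3
    rw [← Finset.mul_sum] at h3
    exact (mul_eq_zero.1 h3).resolve_left (neg_ne_zero.2 h2')
  -- conclusion
  have hM : ∀ a, ∑ j, ((MM (KK I) (CC I) (mon z) a j : ℤ) : ZMod p) * ψ j = 0 := by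
    intro a
    have e1 : ∑ key ∈ KK I, (mon z key : ZMod p) *
        ∑ j, ((CC I key a j + CC I key j a : ℤ) : ZMod p) * ψ j = 0 :=
      Finset.sum_eq_zero fun key hk => by rw [hS key hk a, mul_zero]
    have e3 : (2 : ZMod p) * ∑ j, ((MM (KK I) (CC I) (mon z) a j : ℤ) : ZMod p) * ψ j =
        ∑ key ∈ KK I, (mon z key : ZMod p) *
          ∑ j, ((CC I key a j + CC I key j a : ℤ) : ZMod p) * ψ j +
        ∑ key ∈ KK I, (mon z key : ZMod p) *
          ∑ j, ((CC I key a j - CC I key j a : ℤ) : ZMod p) * ψ j := by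
      rw [← Finset.sum_add_distrib]
      simp only [← mul_add, ← Finset.sum_add_distrib, ← add_mul]
      simp only [MM, Int.cast_sum, Int.cast_mul, Int.cast_add, Int.cast_sub]
      simp only [Finset.mul_sum, Finset.sum_mul]
      rw [Finset.sum_comm]
      apply Finset.sum_congr rfl
      intro key _
      apply Finset.sum_congr rfl
      intro j _
      ring
    rw [e1, hD a, add_zero] at e3
    exact (mul_eq_zero.1 e3).resolve_left h2'
  have hψ0 : ψ = 0 := by
    have hdet : ((c0 • MM (KK I) (CC I) (mon z) + ∑ i, Matrix.vecMulVec (U i) (W i)).map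
        (Int.castRingHom (ZMod p))).det ≠ 0 := by
      rw [← RingHom.mapMatrix_apply, ← RingHom.map_det]
      intro h0
      exact hΔ ((ZMod.intCast_zmod_eq_zero_iff_dvd _ p).1 h0)
    apply Matrix.eq_zero_of_mulVec_eq_zero hdet
    funext a
    rw [Matrix.mulVec, dotProduct, Pi.zero_apply]
    have e1 : ∀ j, ((c0 • MM (KK I) (CC I) (mon z) + ∑ i, Matrix.vecMulVec (U i) (W i)).map
        (Int.castRingHom (ZMod p))) a j * ψ j = (c0 : ZMod p) *
          (((MM (KK I) (CC I) (mon z) a j : ℤ) : ZMod p) * ψ j) +
          ∑ i, ((U i a : ℤ) : ZMod p) * (((W i j : ℤ) : ZMod p) * ψ j) := by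
      intro j
      rw [Matrix.map_apply, Matrix.add_apply, Matrix.smul_apply, Matrix.sum_apply]
      simp only [eq_intCast, smul_eq_mul, Matrix.vecMulVec_apply]
      push_cast
      rw [add_mul, Finset.sum_mul, mul_assoc]
      congr 1
      apply Finset.sum_congr rfl
      intro i _
      ring
    simp only [e1]
    rw [Finset.sum_add_distrib, ← Finset.mul_sum, hM a, mul_zero, zero_add, Finset.sum_comm]
    apply Finset.sum_eq_zero
    intro i _
    rw [← Finset.mul_sum, hW i, mul_zero]
  funext i
  induction i using Fin.addCases with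
  | left i => exact congrFun hψ0 i
  | right i => exact hω i

end

end Pool.Agent.H442R3.SP
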