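import Pool.Agent.H442R3.SP.Lst

/-!
# The test and independent lines
-/

namespace Pool.Agent.H442R3.SP

open Pool.Agent.NPC Pool.Agent.H442R3.MPar Module Pool.Agent.H442R3.SD

section

variable (p : ℕ) [hp : Fact p.Prime] (I : List (List (List (ℤ × List ℕ))))

/-- the lines of an instance -/
abbrev LL (p : ℕ) (I : List (List (List (ℤ × List ℕ)))) : List (List ℕ × List ℕ) :=
  Ln p I (List.range I.length) (List.range (2 * I.length))

theorem vec_eL (N n : ℕ) (c : Fin N) (hc : n ≤ c) :
    vec p N (eL (List.range N) n c) = Pi.single c 1 := by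
  funext l
  rw [eL_vec]
  by_cases h : l = c
  · subst h
    rw [if_pos ⟨rfl, hc⟩, Pi.single_eq_same]
  · rw [if_neg (fun h' => h (Fin.ext h'.1)), Pi.single_eq_of_ne h]

theorem fwd (h2 : (2 : ZMod p) ≠ 0) (hPf : Pf I) (x : List ℕ → ℤ) (hT : Tst p (KK I) (CC I) x) :
    ∃ M, IndepSet (ZMod p) (la p (2 * I.length) (LL p I)) (lb p (2 * I.length) (LL p I)) M ∧
      M.card = I.length := by
  have hN : finrank (ZMod p) (Fin (2 * I.length) → ZMod p) = 2 * I.length := by
    rw [Module.finrank_fintype_fun_eq_card, Fintype.card_fin]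
  have hdm : ∀ k ∈ KK I, dm p I (2 * I.length) k ∈ Submodule.span (ZMod p) (Set.range fun i =>
      bv (F := ZMod p) (la p (2 * I.length) (LL p I) i) (lb p (2 * I.length) (LL p I) i)) := by
    intro k hk
    have hk' : k ∈ vrs I := List.mem_toFinset.1 hk
    by_cases h : ∃ i < I.length, ∃ j < I.length, ((cof I k i j - cof I k j i : ℤ) : ZMod p) ≠ 0
    · obtain ⟨i, hi, j, hj, hij⟩ := h
      have h1 := bv_mem_of_line p (2 * I.length) (LL p I)
        (dL p I (List.range I.length) k i, dL p I (List.range I.length) k j)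
        (List.mem_append_left _ (mem_Jl.2 ⟨k, hk', i, List.mem_range.2 hi, j, List.mem_range.2 hj,
          fun h0 => hij ((dL_getD p I k i j hj).1 h0), rfl⟩))
      have h3 := bv_dv p I hPf (2 * I.length) k i j hi hj
      rw [dv, dv] at h3
      simp only at h1
      rw [h3] at h1
      have h4 := Submodule.smul_mem _ ((cof I k i j - cof I k j i : ℤ) : ZMod p)⁻¹ h1
      rwa [smul_smul, inv_mul_cancel₀ hij, one_smul] at h4
    · push Not at h
      have h0 : dm p I (2 * I.length) k = 0 := by
        apply LinearMap.ext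
        intro φ
        funext c
        rw [dm_apply]
        split_ifs with hc
        · have h3 : dv p I (2 * I.length) k c = 0 := by
            funext l
            rw [dv, dL_vec]
            split_ifs with hl
            · exact h c hc l hl
            · rfl
          rw [h3, map_zero]
          rfl
        · rfl
      rw [h0]
      exact Submodule.zero_mem _
  refine exists_full h2 hN _ _ {w | ∃ l ∈ Wv p I (List.range I.length) (List.range (2 * I.length)),
    vec p (2 * I.length) l = w} (∑ k ∈ KK I, (x k : ZMod p) • dm p I (2 * I.length) k) ?_ ?_ ?_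
  · exact Submodule.sum_mem _ fun k hk => Submodule.smul_mem _ _ (hdm k hk)
  · intro φ hW hY
    let g : ℕ → ZMod p := fun c => if h : c < 2 * I.length then φ (Pi.single ⟨c, h⟩ 1) else 0
    have hg : ∀ c : Fin (2 * I.length), φ (Pi.single c 1) = g c := by
      intro c
      simp only [g, dif_pos c.2]
    have hS : ∀ k i, φ (vec p (2 * I.length) (sL p I (List.range I.length) k i)) =
        ∑ j : Fin I.length, ((cof I k i j + cof I k j i : ℤ) : ZMod p) * g j := by
      intro k i
      rw [phi_sum]
      simp only [sL_vec, hg]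
      exact sum_low p I (2 * I.length) (by omega)
        (fun c => ((cof I k i c + cof I k c i : ℤ) : ZMod p)) g
    have hD : ∀ k i, φ (dv p I (2 * I.length) k i) =
        ∑ j : Fin I.length, ((cof I k i j - cof I k j i : ℤ) : ZMod p) * g j := by
      intro k i
      rw [phi_sum]
      simp only [dv, dL_vec, hg]
      exact sum_low p I (2 * I.length) (by omega)
        (fun c => ((cof I k i c - cof I k c i : ℤ) : ZMod p)) g
    have hψ : (fun j : Fin I.length => g j) = 0 := by
      apply hT
      · intro k hk i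
        exact (hS k i).symm.trans (hW _ ⟨_, mem_Wv.2 (Or.inl ⟨k, List.mem_toFinset.1 hk, i,
          List.mem_range.2 i.2, rfl⟩), rfl⟩)
      · intro i
        have h3 := congrFun hY ⟨i, by omega⟩
        rw [LinearMap.sum_apply, Finset.sum_apply] at h3
        refine Eq.trans ?_ h3
        apply Finset.sum_congr rfl
        intro k _
        rw [LinearMap.smul_apply, Pi.smul_apply, dm_apply, if_pos i.2, hD, smul_eq_mul]
        rfl
    apply LinearMap.ext
    intro v
    rw [phi_sum, LinearMap.zero_apply]
    apply Finset.sum_eq_zero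
    intro c _
    rw [mul_eq_zero]
    right
    by_cases hc : (c : ℕ) < I.length
    · rw [hg]
      exact congrFun hψ ⟨c, hc⟩
    · rw [← vec_eL p (2 * I.length) I.length c (by omega)]
      exact hW _ ⟨_, mem_Wv.2 (Or.inr ⟨c, List.mem_range.2 c.2, rfl⟩), rfl⟩
  · rintro _ ⟨l1, hl1, rfl⟩ _ ⟨l2, hl2, rfl⟩
    by_cases h : ∃ a ∈ List.range (2 * I.length), ∃ b ∈ List.range (2 * I.length),
      (l1.getD a 0 * l2.getD b 0) % p ≠ (l1.getD b 0 * l2.getD a 0) % p
    · exact bv_mem_of_line p (2 * I.length) (LL p I) (l1, l2)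
        (List.mem_append_right _ (mem_Wl.2 ⟨l1, hl1, l2, hl2, h, rfl⟩))
    · push Not at h
      have h0 : bv (F := ZMod p) (vec p (2 * I.length) l1) (vec p (2 * I.length) l2) = 0 := by
        apply LinearMap.ext
        intro φ
        funext c
        rw [bv_apply, Pi.sub_apply, Pi.smul_apply, Pi.smul_apply, smul_eq_mul, smul_eq_mul]
        have h3 : (vec p (2 * I.length) l1 c) • vec p (2 * I.length) l2 -
            (vec p (2 * I.length) l2 c) • vec p (2 * I.length) l1 = 0 := by
          funext l
          have h4 := (minor_iff p (2 * I.length) l1 l2 c l c.2 l.2).1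
            (h c (List.mem_range.2 c.2) l (List.mem_range.2 l.2))
          rw [Pi.sub_apply, Pi.smul_apply, Pi.smul_apply, smul_eq_mul, smul_eq_mul, Pi.zero_apply]
          rw [sub_eq_zero, h4]
          ring
        have h5 := congrArg φ h3
        rw [map_sub, map_smul, map_smul, map_zero, smul_eq_mul, smul_eq_mul] at h5
        rw [LinearMap.zero_apply, Pi.zero_apply]
        linear_combination h5
      rw [h0]
      exact Submodule.zero_mem _

theorem bwd (hPf : Pf I) (M : Finset (Fin (LL p I).length))
    (hM : IndepSet (ZMod p) (la p (2 * I.length) (LL p I)) (lb p (2 * I.length) (LL p I)) M)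
    (hc : M.card = I.length) : ∃ x : List ℕ → ℤ, Tst p (KK I) (CC I) x := by
  classical
  let isJ : Fin (LL p I).length → Prop := fun i => (LL p I).get i ∈ Jl p I (List.range I.length)
  have hJ : ∀ i, isJ i → ∃ k a b, k ∈ vrs I ∧ a < I.length ∧ b < I.length ∧
      (LL p I).get i = (dL p I (List.range I.length) k a, dL p I (List.range I.length) k b) := by
    intro i hi
    obtain ⟨k, hk, a, ha, b, hb, -, h⟩ := mem_Jl.1 hi
    exact ⟨k, a, b, hk, List.mem_range.1 ha, List.mem_range.1 hb, h⟩
  choose! kk aa bb hkk haa hbb hget using hJ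
  let X : List ℕ → ZMod p := fun k => ∑ i ∈ (M.filter isJ).filter (fun i => kk i = k),
    ((cof I (kk i) (aa i) (bb i) - cof I (kk i) (bb i) (aa i) : ℤ) : ZMod p)
  refine ⟨fun k => ((X k).val : ℤ), fun ψ h1 h2 => ?_⟩
  let g : ℕ → ZMod p := fun c => if h : c < I.length then ψ ⟨c, h⟩ else 0
  have hg : ∀ c : Fin I.length, g c = ψ c := fun c => by simp only [g, dif_pos c.2]
  let φ : Dual (ZMod p) (Fin (2 * I.length) → ZMod p) :=
    ∑ c : Fin (2 * I.length), g c • LinearMap.proj c
  have hφ : ∀ v, φ v = ∑ c : Fin (2 * I.length), v c * g c := by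
    intro v
    simp only [φ, LinearMap.sum_apply, LinearMap.smul_apply, LinearMap.proj_apply, smul_eq_mul]
    exact Finset.sum_congr rfl fun c _ => mul_comm _ _
  have hS : ∀ k i, φ (vec p (2 * I.length) (sL p I (List.range I.length) k i)) =
      ∑ j : Fin I.length, ((cof I k i j + cof I k j i : ℤ) : ZMod p) * ψ j := by
    intro k i
    rw [hφ]
    simp only [sL_vec, ← hg]
    exact sum_low p I (2 * I.length) (by omega)
      (fun c => ((cof I k i c + cof I k c i : ℤ) : ZMod p)) g
  have hD : ∀ k i, φ (dv p I (2 * I.length) k i) =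
      ∑ j : Fin I.length, ((cof I k i j - cof I k j i : ℤ) : ZMod p) * ψ j := by
    intro k i
    rw [hφ]
    simp only [dv, dL_vec, ← hg]
    exact sum_low p I (2 * I.length) (by omega)
      (fun c => ((cof I k i c - cof I k c i : ℤ) : ZMod p)) g
  have hWv : ∀ w ∈ Wv p I (List.range I.length) (List.range (2 * I.length)),
      φ (vec p (2 * I.length) w) = 0 := by
    intro w hw
    rcases mem_Wv.1 hw with ⟨k, hk, i, hi, rfl⟩ | ⟨c0, hc0, rfl⟩
    · rw [hS]
      exact h1 k (List.mem_toFinset.2 hk) ⟨i, List.mem_range.1 hi⟩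
    · rw [hφ]
      apply Finset.sum_eq_zero
      intro c _
      rw [eL_vec]
      split_ifs with h
      · have : ¬ (c : ℕ) < I.length := by omega
        simp only [g, dif_neg this, mul_zero]
      · rw [zero_mul]
  have hφ0 : φ = 0 := by
    refine test_of_full (la p (2 * I.length) (LL p I)) (lb p (2 * I.length) (LL p I)) M hM
      ?_ isJ φ ?_ ?_
    · rw [hc, Module.finrank_fintype_fun_eq_card, Fintype.card_fin]
    · intro i _ hi
      have hmem : (LL p I).get i ∈ LL p I := List.get_mem _ _
      rcases List.mem_append.1 hmem with h | h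
      · exact absurd h hi
      · obtain ⟨w1, hw1, w2, hw2, -, h⟩ := mem_Wl.1 h
        constructor
        · rw [la, h]; exact hWv w1 hw1
        · rw [lb, h]; exact hWv w2 hw2
    · have e1 : ∀ i ∈ M.filter isJ, bv (F := ZMod p) (la p (2 * I.length) (LL p I) i)
          (lb p (2 * I.length) (LL p I) i) φ =
          ((cof I (kk i) (aa i) (bb i) - cof I (kk i) (bb i) (aa i) : ℤ) : ZMod p) •
            dm p I (2 * I.length) (kk i) φ := by
        intro i hi
        have hi' : isJ i := (Finset.mem_filter.1 hi).2
        rw [← LinearMap.smul_apply, ← bv_dv p I hPf (2 * I.length) (kk i) (aa i) (bb i)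
          (haa i hi') (hbb i hi')]
        rw [la, lb, hget i hi']
        rfl
      rw [Finset.sum_congr rfl e1]
      have e2 : ∑ i ∈ M.filter isJ,
          ((cof I (kk i) (aa i) (bb i) - cof I (kk i) (bb i) (aa i) : ℤ) : ZMod p) •
            dm p I (2 * I.length) (kk i) φ = ∑ k ∈ KK I, X k • dm p I (2 * I.length) k φ := by
        rw [← Finset.sum_fiberwise_of_maps_to (g := kk) (t := KK I)
          (fun i hi => List.mem_toFinset.2 (hkk i (Finset.mem_filter.1 hi).2))]
        apply Finset.sum_congr rfl
        intro k _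
        rw [Finset.sum_smul]
        apply Finset.sum_congr rfl
        intro i hi
        rw [(Finset.mem_filter.1 hi).2]
      rw [e2]
      funext c
      rw [Finset.sum_apply, Pi.zero_apply]
      by_cases hcl : (c : ℕ) < I.length
      · refine Eq.trans ?_ (h2 ⟨c, hcl⟩)
        apply Finset.sum_congr rfl
        intro k _
        rw [Pi.smul_apply, dm_apply, if_pos hcl, hD, smul_eq_mul, Int.cast_natCast,
          ZMod.natCast_zmod_val]
        rfl
      · apply Finset.sum_eq_zero
        intro k _
        rw [Pi.smul_apply, dm_apply, if_neg hcl, smul_zero]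
  funext j
  have h3 : φ (Pi.single (⟨j, by omega⟩ : Fin (2 * I.length)) 1) = 0 := by rw [hφ0]; rfl
  rw [hφ, Finset.sum_eq_single (⟨j, by omega⟩ : Fin (2 * I.length))] at h3
  · rw [Pi.single_eq_same, one_mul] at h3
    rw [← hg]
    exact h3
  · intro c _ hcj
    rw [Pi.single_eq_of_ne hcj, zero_mul]
  · intro h
    exact absurd (Finset.mem_univ _) h

theorem card_le (M : Finset (Fin (LL p I).length))
    (hM : IndepSet (ZMod p) (la p (2 * I.length) (LL p I)) (lb p (2 * I.length) (LL p I)) M) :
    M.card ≤ I.length := by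
  have h1 := (indep_li _ _ M hM).fintype_card_le_finrank
  rw [Fintype.card_sum, Fintype.card_coe, Module.finrank_fintype_fun_eq_card, Fintype.card_fin] at h1
  omega

theorem line_dim (i : Fin (LL p I).length) : finrank (ZMod p)
    (ln (ZMod p) (la p (2 * I.length) (LL p I) i) (lb p (2 * I.length) (LL p I) i)) = 2 := by
  apply finrank_of_pair
  intro α β h
  have hmem : (LL p I).get i ∈ LL p I := List.get_mem _ _
  rcases List.mem_append.1 hmem with h' | h'
  · obtain ⟨k, hk, a, ha, b, hb, hne, hg⟩ := mem_Jl.1 h'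
    rw [List.mem_range] at ha hb
    have hne' : ((cof I k a b - cof I k b a : ℤ) : ZMod p) ≠ 0 :=
      fun h0 => hne ((dL_getD p I k a b hb).2 h0)
    rw [la, lb, hg] at h
    have e1 := congrFun h ⟨b, by omega⟩
    have e2 := congrFun h ⟨a, by omega⟩
    simp only [Pi.add_apply, Pi.smul_apply, dL_vec, ha, hb, if_true, smul_eq_mul, sub_self,
      Int.cast_zero, mul_zero, add_zero, zero_add, Pi.zero_apply] at e1 e2
    refine ⟨(mul_eq_zero.1 e1).resolve_right hne', (mul_eq_zero.1 e2).resolve_right ?_⟩
    intro h0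
    apply hne'
    have : ((cof I k a b - cof I k b a : ℤ) : ZMod p) = -((cof I k b a - cof I k a b : ℤ) : ZMod p) := by
      rw [← Int.cast_neg]
      congr 1
      ring
    rw [this, h0, neg_zero]
  · obtain ⟨w1, hw1, w2, hw2, ⟨a, ha, b, hb, hne⟩, hg⟩ := mem_Wl.1 h'
    rw [List.mem_range] at ha hb
    rw [Ne, minor_iff p (2 * I.length) w1 w2 a b ha hb] at hne
    rw [la, lb, hg] at h
    have e1 := congrFun h ⟨a, ha⟩
    have e2 := congrFun h ⟨b, hb⟩
    simp only [Pi.add_apply, Pi.smul_apply, smul_eq_mul, Pi.zero_apply] at e1 e2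
    have hne' : vec p (2 * I.length) w1 ⟨a, ha⟩ * vec p (2 * I.length) w2 ⟨b, hb⟩ -
      vec p (2 * I.length) w1 ⟨b, hb⟩ * vec p (2 * I.length) w2 ⟨a, ha⟩ ≠ 0 := sub_ne_zero.2 hne
    constructor
    · refine (mul_eq_zero.1 (?_ : α * (vec p (2 * I.length) w1 ⟨a, ha⟩ *
        vec p (2 * I.length) w2 ⟨b, hb⟩ - vec p (2 * I.length) w1 ⟨b, hb⟩ *
        vec p (2 * I.length) w2 ⟨a, ha⟩) = 0)).resolve_right hne'
      linear_combination vec p (2 * I.length) w2 ⟨b, hb⟩ * e1 - vec p (2 * I.length) w2 ⟨a, ha⟩ * e2
    · refine (mul_eq_zero.1 (?_ : β * (vec p (2 * I.length) w1 ⟨a, ha⟩ *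
        vec p (2 * I.length) w2 ⟨b, hb⟩ - vec p (2 * I.length) w1 ⟨b, hb⟩ *
        vec p (2 * I.length) w2 ⟨a, ha⟩) = 0)).resolve_right hne'
      linear_combination vec p (2 * I.length) w1 ⟨a, ha⟩ * e2 - vec p (2 * I.length) w1 ⟨b, hb⟩ * e1

omit hp in
theorem line_len : ∀ l ∈ LL p I, l.1.length ≤ 2 * I.length ∧ l.2.length ≤ 2 * I.length := by
  have hW : ∀ w ∈ Wv p I (List.range I.length) (List.range (2 * I.length)),
      w.length ≤ 2 * I.length := by
    intro w hw
    rcases mem_Wv.1 hw with ⟨k, hk, i, hi, rfl⟩ | ⟨c0, hc0, rfl⟩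
    · rw [sL, List.length_map, List.length_range]; omega
    · rw [eL, List.length_map, List.length_range]
  intro l hl
  rcases List.mem_append.1 hl with h | h
  · obtain ⟨k, hk, a, ha, b, hb, -, rfl⟩ := mem_Jl.1 h
    simp only [dL, List.length_map, List.length_range]
    omega
  · obtain ⟨w1, hw1, w2, hw2, -, rfl⟩ := mem_Wl.1 h
    exact ⟨hW w1 hw1, hW w2 hw2⟩

theorem length_flatMap_le {α β : Type} (l : List α) (f : α → List β) (B : ℕ)
    (h : ∀ a ∈ l, (f a).length ≤ B) : (l.flatMap f).length ≤ l.length * B := by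
  induction l with
  | nil => simp
  | cons a l ih =>
    rw [List.flatMap_cons, List.length_append, List.length_cons]
    have h1 := ih (fun a ha => h a (List.mem_cons_of_mem _ ha))
    have h2 := h a List.mem_cons_self
    nlinarith

omit hp in
theorem LL_len (L : ℕ) (hL : sz I ≤ L) :
    (LL p I).length ≤ L * L * L + (L * L + 2 * L) * (L * L + 2 * L) := by
  have hn : I.length ≤ L := (len_le_sz I).trans hL
  have hv : (vrs I).length ≤ L := (vrs_len I).trans hL
  have hJ : (Jl p I (List.range I.length)).length ≤ L * L * L := by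
    refine (length_flatMap_le _ _ (L * L) fun k _ => ?_).trans ?_
    · refine (length_flatMap_le _ _ L fun i _ => ?_).trans ?_
      · rw [List.length_map]
        refine (List.length_filter_le _ _).trans ?_
        rw [List.length_range]
        exact hn
      · rw [List.length_range]
        exact Nat.mul_le_mul_right _ hn
    · rw [mul_assoc]
      exact Nat.mul_le_mul_right _ hv
  have hW : (Wv p I (List.range I.length) (List.range (2 * I.length))).length ≤ L * L + 2 * L := by
    rw [Wv, List.length_append, List.length_map, List.length_range]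
    have h1 := length_flatMap_le (vrs I) (fun k => (List.range I.length).map
      (fun i => sL p I (List.range I.length) k i)) L (fun k _ => by
        rw [List.length_map, List.length_range]; exact hn)
    have h2 : (vrs I).length * L ≤ L * L := Nat.mul_le_mul_right _ hv
    omega
  have hWl : (Wl p I (List.range I.length) (List.range (2 * I.length))).length ≤
      (L * L + 2 * L) * (L * L + 2 * L) := by
    refine (length_flatMap_le _ _ (L * L + 2 * L) fun w _ => ?_).trans ?_
    · rw [List.length_map]
      exact (List.length_filter_le _ _).trans hW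
    · exact Nat.mul_le_mul_right _ hW
  rw [LL, Ln, List.length_append]
  omega

end

end Pool.Agent.H442R3.SP
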