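import Pool.Agent.H442R3.SD.Core
import Pool.Agent.H442R3.SP.Bnd

/-!
# The lines
-/

namespace Pool.Agent.H442R3.SP

open Pool.Agent.NPC Pool.Agent.H442R3.MPar Module

/-- residue -/
def rs (p : ℕ) (z : ℤ) : ℕ := bif decide (z < 0) then p - z.natAbs % p else z.natAbs % p

/-- coefficient modulo `p` -/
def aL (p : ℕ) (I : List (List (List (ℤ × List ℕ)))) (k : List ℕ) (i j : ℕ) : ℕ :=
  (((ety I i j).filter (fun q => decide (q.2 = k))).map (fun q => rs p q.1)).sum

/-- rows of symmetric parts -/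
def sL (p : ℕ) (I : List (List (List (ℤ × List ℕ)))) (R : List ℕ) (k : List ℕ) (i : ℕ) :
    List ℕ :=
  R.map (fun j => (aL p I k i j + aL p I k j i) % p)

/-- rows of skew parts -/
def dL (p : ℕ) (I : List (List (List (ℤ × List ℕ)))) (R : List ℕ) (k : List ℕ) (i : ℕ) :
    List ℕ :=
  R.map (fun j => (aL p I k i j + (p - aL p I k j i % p)) % p)

/-- unit vectors -/
def eL (RN : List ℕ) (n c : ℕ) : List ℕ :=
  RN.map (fun j => bif decide (j = c) && decide (n ≤ c) then 1 else 0)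

/-- lines of the skew parts -/
def Jl (p : ℕ) (I : List (List (List (ℤ × List ℕ)))) (R : List ℕ) : List (List ℕ × List ℕ) :=
  (vrs I).flatMap (fun k => R.flatMap (fun i =>
    (R.filter (fun j => !decide ((dL p I R k i).getD j 0 = 0))).map (fun j =>
      (dL p I R k i, dL p I R k j))))

/-- vectors of the symmetric parts -/
def Wv (p : ℕ) (I : List (List (List (ℤ × List ℕ)))) (R RN : List ℕ) : List (List ℕ) :=
  (vrs I).flatMap (fun k => R.map (fun i => sL p I R k i)) ++
    RN.map (fun c => eL RN I.length c)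

/-- lines of the symmetric parts -/
def Wl (p : ℕ) (I : List (List (List (ℤ × List ℕ)))) (R RN : List ℕ) : List (List ℕ × List ℕ) :=
  (Wv p I R RN).flatMap (fun w1 => ((Wv p I R RN).filter (fun w2 =>
    RN.any (fun a => RN.any (fun b =>
      !decide ((w1.getD a 0 * w2.getD b 0) % p = (w1.getD b 0 * w2.getD a 0) % p))))).map
        (fun w2 => (w1, w2)))

/-- all lines -/
def Ln (p : ℕ) (I : List (List (List (ℤ × List ℕ)))) (R RN : List ℕ) : List (List ℕ × List ℕ) :=
  Jl p I R ++ Wl p I R RN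

theorem mem_Jl {p : ℕ} {I : List (List (List (ℤ × List ℕ)))} {R : List ℕ} {l : List ℕ × List ℕ} :
    l ∈ Jl p I R ↔ ∃ k ∈ vrs I, ∃ i ∈ R, ∃ j ∈ R, (dL p I R k i).getD j 0 ≠ 0 ∧
      l = (dL p I R k i, dL p I R k j) := by
  simp only [Jl, List.mem_flatMap, List.mem_map, List.mem_filter, Bool.not_eq_eq_eq_not,
    Bool.not_true, decide_eq_false_iff_not]
  constructor
  · rintro ⟨k, hk, i, hi, j, ⟨hj, h⟩, rfl⟩
    exact ⟨k, hk, i, hi, j, hj, h, rfl⟩
  · rintro ⟨k, hk, i, hi, j, hj, h, rfl⟩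
    exact ⟨k, hk, i, hi, j, ⟨hj, h⟩, rfl⟩

theorem mem_Wv {p : ℕ} {I : List (List (List (ℤ × List ℕ)))} {R RN w : List ℕ} :
    w ∈ Wv p I R RN ↔ (∃ k ∈ vrs I, ∃ i ∈ R, w = sL p I R k i) ∨
      ∃ c ∈ RN, w = eL RN I.length c := by
  simp only [Wv, List.mem_append, List.mem_flatMap, List.mem_map]
  constructor
  · rintro (⟨k, hk, i, hi, rfl⟩ | ⟨c, hc, rfl⟩)
    · exact Or.inl ⟨k, hk, i, hi, rfl⟩
    · exact Or.inr ⟨c, hc, rfl⟩
  · rintro (⟨k, hk, i, hi, rfl⟩ | ⟨c, hc, rfl⟩)
    · exact Or.inl ⟨k, hk, i, hi, rfl⟩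
    · exact Or.inr ⟨c, hc, rfl⟩

theorem mem_Wl {p : ℕ} {I : List (List (List (ℤ × List ℕ)))} {R RN : List ℕ} {l : List ℕ × List ℕ} :
    l ∈ Wl p I R RN ↔ ∃ w1 ∈ Wv p I R RN, ∃ w2 ∈ Wv p I R RN, (∃ a ∈ RN, ∃ b ∈ RN,
      (w1.getD a 0 * w2.getD b 0) % p ≠ (w1.getD b 0 * w2.getD a 0) % p) ∧ l = (w1, w2) := by
  simp only [Wl, List.mem_flatMap, List.mem_map, List.mem_filter, List.any_eq_true,
    Bool.not_eq_eq_eq_not, Bool.not_true, decide_eq_false_iff_not]
  constructor
  · rintro ⟨w1, h1, w2, ⟨h2, h3⟩, rfl⟩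
    exact ⟨w1, h1, w2, h2, h3, rfl⟩
  · rintro ⟨w1, h1, w2, h2, h3, rfl⟩
    exact ⟨w1, h1, w2, ⟨h2, h3⟩, rfl⟩

section

variable (p : ℕ) [hp : Fact p.Prime] (I : List (List (List (ℤ × List ℕ))))

theorem rs_cast (z : ℤ) : ((rs p z : ℕ) : ZMod p) = (z : ZMod p) := by
  rw [rs]
  by_cases h : z < 0
  · rw [decide_eq_true h, cond_true, Nat.cast_sub (Nat.mod_lt _ hp.out.pos).le, ZMod.natCast_self,
      ZMod.natCast_mod, zero_sub]
    have h2 : z = -((z.natAbs : ℕ) : ℤ) := by omega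
    conv_rhs => rw [h2]
    rw [Int.cast_neg, Int.cast_natCast]
  · rw [decide_eq_false h, cond_false, ZMod.natCast_mod]
    have h2 : z = ((z.natAbs : ℕ) : ℤ) := by omega
    conv_rhs => rw [h2]
    rw [Int.cast_natCast]

theorem aL_cast (k : List ℕ) (i j : ℕ) : ((aL p I k i j : ℕ) : ZMod p) = ((cof I k i j : ℤ) : ZMod p) := by
  rw [aL, cof, cfl]
  generalize (ety I i j).filter (fun q => decide (q.2 = k)) = l
  induction l with
  | nil => simp
  | cons q l ih =>
    rw [List.map_cons, List.map_cons, List.sum_cons, List.sum_cons, Nat.cast_add, Int.cast_add, ih,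
      rs_cast]

theorem getD_rng (n : ℕ) (f : ℕ → ℕ) (c : ℕ) :
    ((List.range n).map f).getD c 0 = if c < n then f c else 0 := by
  split_ifs with h
  · rw [List.getD_eq_getElem _ _ (by simpa using h)]
    simp
  · rw [List.getD_eq_default _ _ (by simp; omega)]

theorem sL_vec (N : ℕ) (k : List ℕ) (i : ℕ) (c : Fin N) : vec p N (sL p I (List.range I.length) k i) c =
    if (c : ℕ) < I.length then ((cof I k i c + cof I k c i : ℤ) : ZMod p) else 0 := by
  rw [vec, sL, getD_rng]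
  split_ifs
  · rw [ZMod.natCast_mod, Nat.cast_add, aL_cast, aL_cast, Int.cast_add]
  · simp

theorem dL_vec (N : ℕ) (k : List ℕ) (i : ℕ) (c : Fin N) : vec p N (dL p I (List.range I.length) k i) c =
    if (c : ℕ) < I.length then ((cof I k i c - cof I k c i : ℤ) : ZMod p) else 0 := by
  rw [vec, dL, getD_rng]
  split_ifs
  · rw [ZMod.natCast_mod, Nat.cast_add, Nat.cast_sub (Nat.mod_lt _ hp.out.pos).le,
      ZMod.natCast_self, ZMod.natCast_mod, aL_cast, aL_cast, Int.cast_sub]
    ring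
  · simp

theorem eL_vec (N n c0 : ℕ) (c : Fin N) : vec p N (eL (List.range N) n c0) c =
    if (c : ℕ) = c0 ∧ n ≤ c0 then 1 else 0 := by
  rw [vec, eL, getD_rng, if_pos c.2]
  by_cases h : (c : ℕ) = c0 ∧ n ≤ c0
  · rw [if_pos h, decide_eq_true h.1, decide_eq_true h.2]
    simp
  · rw [if_neg h]
    have : (decide ((c : ℕ) = c0) && decide (n ≤ c0)) = false := by
      rw [Bool.and_eq_false_iff]
      by_cases h1 : (c : ℕ) = c0
      · right
        exact decide_eq_false fun h2 => h ⟨h1, h2⟩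
      · left
        exact decide_eq_false h1
    rw [this]
    simp

theorem dL_getD (k : List ℕ) (i j : ℕ) (hj : j < I.length) :
    (dL p I (List.range I.length) k i).getD j 0 = 0 ↔
      ((cof I k i j - cof I k j i : ℤ) : ZMod p) = 0 := by
  have h1 := dL_vec p I I.length k i ⟨j, hj⟩
  rw [if_pos hj] at h1
  rw [← h1, vec, dL, getD_rng, if_pos hj, ZMod.natCast_eq_zero_iff]
  constructor
  · intro h
    rw [h]
    exact dvd_zero _
  · intro h
    exact Nat.eq_zero_of_dvd_of_lt h (Nat.mod_lt _ hp.out.pos)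

theorem minor_iff (N : ℕ) (w1 w2 : List ℕ) (a b : ℕ) (ha : a < N) (hb : b < N) :
    (w1.getD a 0 * w2.getD b 0) % p = (w1.getD b 0 * w2.getD a 0) % p ↔
      vec p N w1 ⟨a, ha⟩ * vec p N w2 ⟨b, hb⟩ = vec p N w1 ⟨b, hb⟩ * vec p N w2 ⟨a, ha⟩ := by
  simp only [vec]
  rw [← Nat.cast_mul, ← Nat.cast_mul, ZMod.natCast_eq_natCast_iff]
  rfl

/-- row of a skew part -/
def dv (N : ℕ) (k : List ℕ) (i : ℕ) : Fin N → ZMod p := vec p N (dL p I (List.range I.length) k i)

/-- skew part as a map -/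
def dm (N : ℕ) (k : List ℕ) : Dual (ZMod p) (Fin N → ZMod p) →ₗ[ZMod p] (Fin N → ZMod p) where
  toFun φ := fun c => if (c : ℕ) < I.length then φ (dv p I N k c) else 0
  map_add' φ ψ := by
    funext c
    simp only [LinearMap.add_apply, Pi.add_apply]
    split_ifs <;> simp
  map_smul' a φ := by
    funext c
    simp only [LinearMap.smul_apply, Pi.smul_apply, RingHom.id_apply, smul_eq_mul]
    split_ifs <;> simp

theorem dm_apply (N : ℕ) (k : List ℕ) (φ : Dual (ZMod p) (Fin N → ZMod p)) (c : Fin N) :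
    dm p I N k φ c = if (c : ℕ) < I.length then φ (dv p I N k c) else 0 := rfl

/-- Pfaffian relations -/
def Pf : Prop := ∀ (k : List ℕ) (i j a b : ℕ), i < I.length → j < I.length → a < I.length → b < I.length →
  (cof I k i j - cof I k j i) * (cof I k a b - cof I k b a) -
    (cof I k i a - cof I k a i) * (cof I k j b - cof I k b j) +
    (cof I k i b - cof I k b i) * (cof I k j a - cof I k a j) = 0

theorem bv_dv (hPf : Pf I) (N : ℕ) (k : List ℕ) (i j : ℕ) (hi : i < I.length) (hj : j < I.length) :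
    bv (dv p I N k i) (dv p I N k j) =
      ((cof I k i j - cof I k j i : ℤ) : ZMod p) • dm p I N k := by
  apply LinearMap.ext
  intro φ
  funext c
  rw [bv_apply, LinearMap.smul_apply, Pi.sub_apply, Pi.smul_apply, Pi.smul_apply, Pi.smul_apply,
    dm_apply]
  by_cases hc : (c : ℕ) < I.length
  · rw [if_pos hc]
    have h1 : ((cof I k i j - cof I k j i : ℤ) : ZMod p) • dv p I N k c =
        (dv p I N k i c) • dv p I N k j - (dv p I N k j c) • dv p I N k i := by
      funext l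
      rw [Pi.smul_apply, Pi.sub_apply, Pi.smul_apply, Pi.smul_apply]
      simp only [dv, dL_vec, if_pos hc, smul_eq_mul]
      by_cases hl : (l : ℕ) < I.length
      · simp only [if_pos hl]
        have h2 := hPf k i j c l hi hj hc hl
        have h3 := congrArg (Int.cast : ℤ → ZMod p) h2
        push_cast at h3 ⊢
        linear_combination h3
      · simp only [if_neg hl, mul_zero, sub_zero]
    rw [← map_smul, h1, map_sub, map_smul, map_smul]
    simp only [smul_eq_mul]
    ring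
  · rw [if_neg hc]
    simp only [dv, dL_vec, if_neg hc, smul_zero, sub_zero]

theorem bv_mem_of_line (N : ℕ) (lines : List (List ℕ × List ℕ)) (l : List ℕ × List ℕ)
    (hl : l ∈ lines) : bv (F := ZMod p) (vec p N l.1) (vec p N l.2) ∈
      Submodule.span (ZMod p) (Set.range fun i => bv (F := ZMod p) (la p N lines i) (lb p N lines i)) := by
  obtain ⟨i, rfl⟩ := List.mem_iff_get.1 hl
  exact Submodule.subset_span ⟨i, rfl⟩

theorem phi_sum (N : ℕ) (φ : Dual (ZMod p) (Fin N → ZMod p)) (v : Fin N → ZMod p) :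
    φ v = ∑ c, v c * φ (Pi.single c 1) := by
  have : v = ∑ c, v c • (Pi.single c 1 : Fin N → ZMod p) := by
    funext j
    simp [Finset.sum_apply, Pi.single_apply]
  conv_lhs => rw [this]
  rw [map_sum]
  simp only [map_smul, smul_eq_mul]

theorem sum_low (N : ℕ) (hN : I.length ≤ N) (f g : ℕ → ZMod p) :
    ∑ c : Fin N, (if (c : ℕ) < I.length then f c else 0) * g c =
      ∑ j : Fin I.length, f j * g j := by
  obtain ⟨m, rfl⟩ := Nat.exists_eq_add_of_le hN
  rw [Fin.sum_univ_add]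
  simp only [Fin.val_castAdd, Fin.is_lt, if_true, Fin.val_natAdd]
  rw [add_eq_left]
  apply Finset.sum_eq_zero
  intro c _
  rw [if_neg (by omega), zero_mul]

end

end Pool.Agent.H442R3.SP
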