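import Pool.Agent.H442R3.SP.Cor

/-!
# From the test to an integer point
-/

namespace Pool.Agent.H442R3.SP

open Finset

section

variable {n : ℕ}

/-- the index has a nonzero skew part -/
def Skw (c : List ℕ → Fin n → Fin n → ℤ) (k : List ℕ) : Prop := ∃ i j, c k i j ≠ c k j i

/-- the class -/
def Cls (K : Finset (List ℕ)) (c : List ℕ → Fin n → Fin n → ℤ) : Prop :=
  (∃ ε : ℕ → ℤ, (∀ i, ε i = 1 ∨ ε i = -1) ∧
    ∀ k ∈ K, ∀ w : Fin n → ℤ, 0 ≤ mon ε k * ∑ i, ∑ j, w i * c k i j * w j) ∧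
  ∃ v : List ℕ → ℕ, ∀ k ∈ K, Skw c k → k.count (v k) = 1 ∧
    ∀ k' ∈ K, Skw c k' → k' ≠ k → v k ∉ k'

theorem mon_cast (p : ℕ) (z z' : ℕ → ℤ) (h : ∀ i, ((z i : ℤ) : ZMod p) = ((z' i : ℤ) : ZMod p))
    (k : List ℕ) : ((mon z k : ℤ) : ZMod p) = ((mon z' k : ℤ) : ZMod p) := by
  induction k with
  | nil => rfl
  | cons a k ih =>
    rw [mon, mon] at *
    rw [List.map_cons, List.prod_cons, List.map_cons, List.prod_cons, Int.cast_mul, Int.cast_mul,
      ih, h a]

theorem mon_sign (z ε : ℕ → ℤ) (hε : ∀ i, ε i = 1 ∨ ε i = -1) (hz : ∀ i, 0 < ε i * z i)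
    (k : List ℕ) : ∃ t : ℤ, 0 < t ∧ mon z k = t * mon ε k := by
  induction k with
  | nil => exact ⟨1, one_pos, by simp [mon]⟩
  | cons a k ih =>
    obtain ⟨t, ht, h⟩ := ih
    refine ⟨t * (ε a * z a), mul_pos ht (hz a), ?_⟩
    rw [mon, mon] at *
    rw [List.map_cons, List.prod_cons, List.map_cons, List.prod_cons, h]
    rcases hε a with h1 | h1 <;> rw [h1] <;> ring

theorem exists_point {p : ℕ} [hp : Fact p.Prime] (K : Finset (List ℕ))
    (c : List ℕ → Fin n → Fin n → ℤ) (hs : Cls K c) (X : List ℕ → ℤ) (hT : Tst p K c X) :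
    ∃ z : ℕ → ℤ, (MM K c (mon z)).det ≠ 0 := by
  classical
  obtain ⟨⟨ε, hε, hnn⟩, v, hv⟩ := hs
  have hpp : (0 : ℤ) < p := by exact_mod_cast hp.out.pos
  let z0 : ℕ → ℤ := fun i => if h : ∃ k, k ∈ K ∧ Skw c k ∧ v k = i then X h.choose else 1
  have hz0 : ∀ k ∈ K, Skw c k → mon z0 k = X k := by
    intro k hk hsk
    obtain ⟨h1, h2⟩ := hv k hk hsk
    have huniq : ∀ i, i ∈ k → ∀ k', k' ∈ K → Skw c k' → v k' = i → k' = k := by
      intro i hi k' hk' hsk' hi'
      by_contra hne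
      exact (hv k' hk' hsk').2 k hk hsk (fun h => hne h.symm) (hi' ▸ hi)
    have hmem : v k ∈ k := by
      rw [← List.count_pos_iff, h1]
      exact one_pos
    have h3 : ∀ a', a' ≠ v k → a' ∈ k → z0 a' = 1 := by
      intro a' hne ha'
      have : ¬ ∃ k', k' ∈ K ∧ Skw c k' ∧ v k' = a' := by
        rintro ⟨k', hk', hsk', hva⟩
        have := huniq a' ha' k' hk' hsk' hva
        subst this
        exact hne hva.symm
      simp only [z0, dif_neg this]
    have h4 : z0 (v k) = X k := by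
      have hex : ∃ k', k' ∈ K ∧ Skw c k' ∧ v k' = v k := ⟨k, hk, hsk, rfl⟩
      simp only [z0, dif_pos hex]
      have h5 := hex.choose_spec
      rw [huniq (v k) hmem _ h5.1 h5.2.1 h5.2.2]
    rw [mon, List.prod_map_eq_pow_single (v k) z0 h3, h1, pow_one, h4]
  let z : ℕ → ℤ := fun i => if ε i = 1 then z0 i % p + p else z0 i % p - p
  have hmod : ∀ i, ((z i : ℤ) : ZMod p) = ((z0 i : ℤ) : ZMod p) := by
    intro i
    simp only [z]
    split_ifs
    · rw [Int.cast_add, ZMod.intCast_mod, Int.cast_natCast, ZMod.natCast_self, add_zero]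
    · rw [Int.cast_sub, ZMod.intCast_mod, Int.cast_natCast, ZMod.natCast_self, sub_zero]
  have hsign : ∀ i, 0 < ε i * z i := by
    intro i
    have h1 := Int.emod_nonneg (z0 i) hpp.ne'
    have h2 := Int.emod_lt_of_pos (z0 i) hpp
    simp only [z]
    split_ifs with h
    · rw [h]; omega
    · rw [(hε i).resolve_left h]; omega
  refine ⟨z, ?_⟩
  refine det_of_pos K c (mon z0) (mon z) (fun k _ => mon_cast p z z0 hmod k) ?_ ?_
    (hT.congr fun k hk hsk => by rw [hz0 k hk hsk])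
  · intro k _
    obtain ⟨t, ht, h⟩ := mon_sign z ε hε hsign k
    have h2 : mon ε k ≠ 0 := by
      rw [mon]
      apply List.prod_ne_zero
      intro h0
      obtain ⟨i, _, hi⟩ := List.mem_map.1 h0
      rcases hε i with h3 | h3 <;> rw [h3] at hi <;> norm_num at hi
    rw [h]
    exact mul_ne_zero ht.ne' h2
  · intro k hk w
    obtain ⟨t, ht, h⟩ := mon_sign z ε hε hsign k
    rw [h, mul_assoc]
    exact mul_nonneg ht.le (hnn k hk w)

end

end Pool.Agent.H442R3.SP
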