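import Pool.Agent.H442R3.SP.Brd2

/-!
# Rank and bordered matrices
-/

namespace Pool.Agent.H442R3.SP

open Pool.Agent.NPC Finset Module

theorem exists_ker {F : Type*} [Field F] {n k : ℕ} (A : Matrix (Fin n) (Fin n) F)
    (B : Matrix (Fin k) (Fin n) F) (h : A.rank + k < n) :
    ∃ v : Fin n → F, v ≠ 0 ∧ A.mulVec v = 0 ∧ B.mulVec v = 0 := by
  have h1 := LinearMap.finrank_range_add_finrank_ker A.mulVecLin
  rw [Module.finrank_fintype_fun_eq_card, Fintype.card_fin] at h1
  have h2 : finrank F (LinearMap.range A.mulVecLin) = A.rank := rfl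
  have h3 : finrank F (Fin k → F) < finrank F (LinearMap.ker A.mulVecLin) := by
    rw [Module.finrank_fintype_fun_eq_card, Fintype.card_fin]
    omega
  have h4 := LinearMap.ker_ne_bot_of_finrank_lt
    (f := B.mulVecLin.domRestrict (LinearMap.ker A.mulVecLin)) h3
  obtain ⟨⟨v, hv⟩, hv1, hv2⟩ := Submodule.exists_mem_ne_zero_of_ne_bot h4
  refine ⟨v, fun h => hv2 (Subtype.ext h), LinearMap.mem_ker.1 hv, ?_⟩
  exact LinearMap.mem_ker.1 hv1

section

variable {R : Type*} [CommRing R] [IsDomain R] {n k : ℕ}

theorem rank_of_border (A : Matrix (Fin n) (Fin n) R) (c0 : R) (U W : Fin k → Fin n → R)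
    (h : (c0 • A + ∑ i, Matrix.vecMulVec (U i) (W i)).det ≠ 0) :
    n ≤ (A.map (algebraMap R (FractionRing R))).rank + k := by
  by_contra hcon
  push Not at hcon
  obtain ⟨v, hv0, hv1, hv2⟩ := exists_ker (A.map (algebraMap R (FractionRing R)))
    (fun i a => algebraMap R (FractionRing R) (W i a)) hcon
  apply hv0
  have hdet : ((c0 • A + ∑ i, Matrix.vecMulVec (U i) (W i)).map
      (algebraMap R (FractionRing R))).det ≠ 0 := by
    rw [← RingHom.mapMatrix_apply, ← RingHom.map_det]
    intro h0
    apply h
    apply IsFractionRing.injective R (FractionRing R)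
    rw [h0, map_zero]
  apply Matrix.eq_zero_of_mulVec_eq_zero hdet
  funext a
  rw [Matrix.mulVec, dotProduct, Pi.zero_apply]
  have e1 : ∀ j, ((c0 • A + ∑ i, Matrix.vecMulVec (U i) (W i)).map
      (algebraMap R (FractionRing R))) a j * v j = algebraMap R (FractionRing R) c0 *
        (algebraMap R (FractionRing R) (A a j) * v j) +
        ∑ i, algebraMap R (FractionRing R) (U i a) *
          (algebraMap R (FractionRing R) (W i j) * v j) := by
    intro j
    rw [Matrix.map_apply, Matrix.add_apply, Matrix.smul_apply, Matrix.sum_apply]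
    simp only [smul_eq_mul, Matrix.vecMulVec_apply, map_add, map_mul, map_sum]
    rw [add_mul, Finset.sum_mul, mul_assoc]
    congr 1
    apply Finset.sum_congr rfl
    intro i _
    ring
  simp only [e1]
  have e2 : ∑ j, algebraMap R (FractionRing R) (A a j) * v j = 0 := congrFun hv1 a
  have e3 : ∀ i, ∑ j, algebraMap R (FractionRing R) (W i j) * v j = 0 := fun i => congrFun hv2 i
  rw [Finset.sum_add_distrib, ← Finset.mul_sum, e2, mul_zero, zero_add, Finset.sum_comm]
  apply Finset.sum_eq_zero
  intro i _
  rw [← Finset.mul_sum, e3 i, mul_zero]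

theorem exists_border (A : Matrix (Fin n) (Fin n) R)
    (h : n ≤ (A.map (algebraMap R (FractionRing R))).rank + k) :
    ∃ (c0 : R) (U W : Fin k → Fin n → R),
      (c0 • A + ∑ i, Matrix.vecMulVec (U i) (W i)).det ≠ 0 := by
  classical
  obtain ⟨L, L', D, hD⟩ := Matrix.Pivot.exists_list_transvec_mul_diagonal_mul_list_transvec
    (A.map (algebraMap R (FractionRing R)))
  set P := (L.map Matrix.TransvectionStruct.toMatrix).prod with hP
  set Q := (L'.map Matrix.TransvectionStruct.toMatrix).prod with hQ
  have hPd : P.det = 1 := Matrix.TransvectionStruct.det_toMatrix_prod L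
  have hQd : Q.det = 1 := Matrix.TransvectionStruct.det_toMatrix_prod L'
  have hr : (A.map (algebraMap R (FractionRing R))).rank = Fintype.card {i // D i ≠ 0} := by
    rw [hD, Matrix.rank_mul_eq_left_of_isUnit_det _ _ (by rw [hQd]; exact isUnit_one),
      Matrix.rank_mul_eq_right_of_isUnit_det _ _ (by rw [hPd]; exact isUnit_one),
      Matrix.rank_diagonal]
  have hZ : Fintype.card {i // D i = 0} ≤ k := by
    have h1 := Fintype.card_subtype_compl (fun i => D i = 0)
    have h2 : Fintype.card {i // D i = 0} ≤ Fintype.card (Fin n) := Fintype.card_subtype_le _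
    rw [Fintype.card_fin] at h1 h2
    have h3 : Fintype.card {i // D i ≠ 0} = Fintype.card {i // ¬ D i = 0} := rfl
    omega
  obtain ⟨e⟩ := Function.Embedding.nonempty_of_card_le (α := {i // D i = 0}) (β := Fin k)
    (by rwa [Fintype.card_fin])
  let u : Fin k → Fin n → FractionRing R := fun i a => ∑ t : {i // D i = 0},
    if e t = i then P a t else 0
  let w : Fin k → Fin n → FractionRing R := fun i b => ∑ t : {i // D i = 0},
    if e t = i then Q t b else 0
  have hsum : ∀ a b, ∑ i, u i a * w i b = ∑ t : {i // D i = 0}, P a t * Q t b := by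
    intro a b
    have e1 : ∀ i, u i a * w i b = ∑ t : {i // D i = 0}, if e t = i then P a t * Q t b else 0 := by
      intro i
      by_cases hex : ∃ t, e t = i
      · obtain ⟨t, rfl⟩ := hex
        simp only [u, w]
        rw [Finset.sum_eq_single t, Finset.sum_eq_single t, Finset.sum_eq_single t, if_pos rfl,
          if_pos rfl, if_pos rfl]
        · intro s _ hs; rw [if_neg (fun h => hs (e.injective h))]
        · intro h; exact absurd (Finset.mem_univ _) h
        · intro s _ hs; rw [if_neg (fun h => hs (e.injective h))]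
        · intro h; exact absurd (Finset.mem_univ _) h
        · intro s _ hs; rw [if_neg (fun h => hs (e.injective h))]
        · intro h; exact absurd (Finset.mem_univ _) h
      · push Not at hex
        simp only [u, w, if_neg (hex _), Finset.sum_const_zero, mul_zero]
    simp only [e1]
    rw [Finset.sum_comm]
    apply Finset.sum_congr rfl
    intro t _
    rw [Finset.sum_ite_eq, if_pos (Finset.mem_univ _)]
  have hN : A.map (algebraMap R (FractionRing R)) + ∑ i, Matrix.vecMulVec (u i) (w i) =
      P * Matrix.diagonal (fun i => if D i = 0 then 1 else D i) * Q := by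
    rw [hD]
    ext a b
    rw [Matrix.add_apply, Matrix.sum_apply]
    simp only [Matrix.vecMulVec_apply]
    rw [hsum, Matrix.mul_apply, Matrix.mul_apply]
    simp only [Matrix.mul_diagonal]
    have e2 : ∑ t : {i // D i = 0}, P a t * Q t b =
        ∑ x, if D x = 0 then P a x * Q x b else 0 := by
      rw [← Finset.sum_filter]
      exact (Finset.sum_subtype (Finset.univ.filter (fun i => D i = 0)) (by simp)
        (fun x => P a x * Q x b)).symm
    rw [e2, ← Finset.sum_add_distrib]
    apply Finset.sum_congr rfl
    intro x _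
    by_cases hx : D x = 0
    · rw [if_pos hx, if_pos hx, hx]
      ring
    · rw [if_neg hx, if_neg hx, add_zero]
  have hNdet : (A.map (algebraMap R (FractionRing R)) +
      ∑ i, Matrix.vecMulVec (u i) (w i)).det ≠ 0 := by
    rw [hN, Matrix.det_mul, Matrix.det_mul, hPd, hQd, one_mul, mul_one, Matrix.det_diagonal,
      Finset.prod_ne_zero_iff]
    intro i _
    split_ifs with hi
    · exact one_ne_zero
    · exact hi
  obtain ⟨b, hb⟩ := IsLocalization.exist_integer_multiples_of_finite (nonZeroDivisors R)
    (S := FractionRing R) (fun x : (Fin k × Fin n) ⊕ (Fin k × Fin n) =>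
      Sum.elim (fun y => u y.1 y.2) (fun y => w y.1 y.2) x)
  choose g hg using hb
  have hb0 : algebraMap R (FractionRing R) (b : R) ≠ 0 := by
    intro h0
    exact nonZeroDivisors.ne_zero b.2 (IsFractionRing.injective R (FractionRing R)
      (by rw [h0, map_zero]))
  refine ⟨(b : R) * b, fun i a => g (Sum.inl (i, a)), fun i a => g (Sum.inr (i, a)), fun h0 => ?_⟩
  have h1 : (((b : R) * b) • A + ∑ i, Matrix.vecMulVec (fun a => g (Sum.inl (i, a)))
      (fun a => g (Sum.inr (i, a)))).map (algebraMap R (FractionRing R)) =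
      (algebraMap R (FractionRing R) (b : R) * algebraMap R (FractionRing R) (b : R)) •
        (A.map (algebraMap R (FractionRing R)) + ∑ i, Matrix.vecMulVec (u i) (w i)) := by
    ext x y
    rw [Matrix.map_apply, Matrix.add_apply, Matrix.smul_apply, Matrix.sum_apply,
      Matrix.smul_apply, Matrix.add_apply, Matrix.sum_apply, Matrix.map_apply]
    simp only [smul_eq_mul, Matrix.vecMulVec_apply, map_add, map_mul, map_sum]
    rw [mul_add]
    congr 1
    rw [Finset.mul_sum]
    apply Finset.sum_congr rfl
    intro i _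
    have e3 := hg (Sum.inl (i, x))
    have e4 := hg (Sum.inr (i, y))
    simp only [Sum.elim_inl, Sum.elim_inr, Algebra.smul_def] at e3 e4
    rw [e3, e4]
    ring
  have h2 : ((((b : R) * b) • A + ∑ i, Matrix.vecMulVec (fun a => g (Sum.inl (i, a)))
      (fun a => g (Sum.inr (i, a)))).map (algebraMap R (FractionRing R))).det = 0 := by
    rw [← RingHom.mapMatrix_apply, ← RingHom.map_det, h0, map_zero]
  rw [h1, Matrix.det_smul] at h2
  rcases mul_eq_zero.1 h2 with h3 | h3
  · exact (pow_ne_zero _ (mul_ne_zero hb0 hb0)) h3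
  · exact hNdet h3

end

end Pool.Agent.H442R3.SP
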