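import Pool.Agent.H442R3.SP.Rnk

/-!
# The rank algorithm
-/

namespace Pool.Agent.H442R3.SP

open Pool.Agent.NPC Finset Module

theorem transport (J : List (List (List (ℤ × List ℕ)))) (m : ℕ) (h : J.length = m)
    (K : Finset (List ℕ)) (x : List ℕ → ℤ) : (MM K (CC J) x).det =
      (MM K (fun key (i j : Fin m) => cof J key i j) x).det := by
  subst h
  rfl

theorem transportCls (J : List (List (List (ℤ × List ℕ)))) (m : ℕ) (h : J.length = m)
    (K : Finset (List ℕ)) (hc : Cls K (fun key (i j : Fin m) => cof J key i j)) :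
    Cls K (CC J) := by
  subst h
  exact hc

section

variable (I : List (List (List (ℤ × List ℕ)))) (k : ℕ)

theorem top_left (z : ℕ → ℤ) (a j : Fin I.length) :
    MM (KK (bd I k)) (c2 I k) (mon z) (Fin.castAdd k a) (Fin.castAdd k j) =
      MM (KK I) (CC I) (mon z) a j := by
  simp only [MM, c2_tt]
  have hz1 : ∀ key, key ∉ KK I → mon z key * cof I key a j = 0 := by
    intro key hk
    rw [cof_eq_zero I key (fun h => hk (List.mem_toFinset.2 h)), mul_zero]
  have hz2 : ∀ key, key ∉ KK (bd I k) → mon z key * cof I key a j = 0 := by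
    intro key hk
    rw [cof_zero_of_notMem I k (fun h => hk (List.mem_toFinset.2 h)) a.2 j.2, mul_zero]
  rw [Finset.sum_subset (Finset.subset_union_left (s₂ := KK I)) (fun key _ h => hz2 key h)]
  exact (Finset.sum_subset (Finset.subset_union_right (s₁ := KK (bd I k)))
    (fun key _ h => hz1 key h)).symm

theorem rank_lower (z : ℕ → ℤ) (h : (MM (KK (bd I k)) (c2 I k) (mon z)).det ≠ 0) :
    I.length ≤ ((MM (KK I) (CC I) (mon z)).map (algebraMap ℤ (FractionRing ℤ))).rank + k := by
  by_contra hcon
  push Not at hcon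
  obtain ⟨v, hv0, hv1, hv2⟩ := exists_ker ((MM (KK I) (CC I) (mon z)).map
    (algebraMap ℤ (FractionRing ℤ))) (fun (i : Fin k) (a : Fin I.length) =>
      algebraMap ℤ (FractionRing ℤ) (MM (KK (bd I k)) (c2 I k) (mon z) (Fin.natAdd I.length i)
        (Fin.castAdd k a))) hcon
  have hdet : ((MM (KK (bd I k)) (c2 I k) (mon z)).map
      (algebraMap ℤ (FractionRing ℤ))).det ≠ 0 := by
    rw [← RingHom.mapMatrix_apply, ← RingHom.map_det]
    intro h0
    apply h
    apply IsFractionRing.injective ℤ (FractionRing ℤ)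
    rw [h0, map_zero]
  let v' : Fin (I.length + k) → FractionRing ℤ := Fin.addCases v (fun _ => 0)
  have hv'1 : ∀ a, v' (Fin.castAdd k a) = v a := fun a => Fin.addCases_left a
  have hv'2 : ∀ i, v' (Fin.natAdd I.length i) = 0 := fun i => Fin.addCases_right i
  have hz : v' = 0 := by
    apply Matrix.eq_zero_of_mulVec_eq_zero hdet
    funext r
    rw [Matrix.mulVec, dotProduct, Fin.sum_univ_add, Pi.zero_apply]
    simp only [hv'1, hv'2, mul_zero, Finset.sum_const_zero, add_zero, Matrix.map_apply]
    induction r using Fin.addCases with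
    | left a =>
      simp only [top_left]
      exact congrFun hv1 a
    | right i => exact congrFun hv2 i
  apply hv0
  funext a
  rw [← hv'1, hz]
  rfl

variable (PM : Matrix (Fin I.length) (Fin I.length) (MvPolynomial ℕ ℤ))

theorem bd_iff (hs : Cls (KK I) (CC I))
    (hPM : ∀ z : ℕ → ℤ, PM.map (MvPolynomial.eval z) = MM (KK I) (CC I) (mon z)) :
    (∃ z : ℕ → ℤ, (MM (KK (bd I k)) (c2 I k) (mon z)).det ≠ 0) ↔
      I.length ≤ (PM.map (algebraMap (MvPolynomial ℕ ℤ)
        (FractionRing (MvPolynomial ℕ ℤ)))).rank + k := by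
  have hev : ∀ (z : ℕ → ℤ) (c0 : MvPolynomial ℕ ℤ) (U W : Fin k → Fin I.length → MvPolynomial ℕ ℤ),
      MvPolynomial.eval z (c0 • PM + ∑ i, Matrix.vecMulVec (U i) (W i)).det =
      ((MvPolynomial.eval z c0) • MM (KK I) (CC I) (mon z) + ∑ i, Matrix.vecMulVec
        (fun a => MvPolynomial.eval z (U i a)) (fun a => MvPolynomial.eval z (W i a))).det := by
    intro z c0 U W
    rw [RingHom.map_det, ← hPM]
    congr 1
    ext a b
    rw [RingHom.mapMatrix_apply, Matrix.map_apply, Matrix.add_apply, Matrix.smul_apply,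
      Matrix.sum_apply, Matrix.add_apply, Matrix.smul_apply, Matrix.sum_apply, Matrix.map_apply]
    simp only [smul_eq_mul, Matrix.vecMulVec_apply, map_add, map_mul, map_sum]
  constructor
  · rintro ⟨z, hz⟩
    obtain ⟨c0, U, W, h⟩ := exists_border (MM (KK I) (CC I) (mon z)) (rank_lower I k z hz)
    apply rank_of_border PM (MvPolynomial.C c0) (fun i a => MvPolynomial.C (U i a))
      (fun i a => MvPolynomial.C (W i a))
    intro h0
    apply h
    have h1 := hev z (MvPolynomial.C c0) (fun i a => MvPolynomial.C (U i a))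
      (fun i a => MvPolynomial.C (W i a))
    rw [h0, map_zero] at h1
    simp only [MvPolynomial.eval_C] at h1
    exact h1.symm
  · intro h
    obtain ⟨c0, U, W, h⟩ := exists_border PM h
    have hz : ∃ z : ℕ → ℤ, MvPolynomial.eval z
        (c0 • PM + ∑ i, Matrix.vecMulVec (U i) (W i)).det ≠ 0 := by
      by_contra hcon
      push Not at hcon
      apply h
      apply MvPolynomial.funext
      intro x
      rw [hcon x, map_zero]
    obtain ⟨z, hz⟩ := hz
    rw [hev] at hz
    set Δ := ((MvPolynomial.eval z c0) • MM (KK I) (CC I) (mon z) + ∑ i, Matrix.vecMulVec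
        (fun a => MvPolynomial.eval z (U i a)) (fun a => MvPolynomial.eval z (W i a))).det with hΔ
    obtain ⟨p, hp1, hp2⟩ := Nat.exists_infinite_primes (Δ.natAbs + 3)
    have hfact : Fact p.Prime := ⟨hp2⟩
    have hnd : ¬ (p : ℤ) ∣ Δ := by
      intro hd
      have h1 := Nat.le_of_dvd (Int.natAbs_pos.2 hz) (Int.natCast_dvd.1 hd)
      omega
    exact exists_point (KK (bd I k)) (c2 I k) (cls_bd I k hs) _
      (tst_bd I k (by omega) z (MvPolynomial.eval z c0) _ _ hnd)

theorem algo_bd (hPf : Pf I) (hs : Cls (KK I) (CC I))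
    (hPM : ∀ z : ℕ → ℤ, PM.map (MvPolynomial.eval z) = MM (KK I) (CC I) (mon z)) :
    algo (bd I k) (sz (bd I k)) = true ↔
      I.length ≤ (PM.map (algebraMap (MvPolynomial ℕ ℤ)
        (FractionRing (MvPolynomial ℕ ℤ)))).rank + k := by
  rw [algo_correct (bd I k) (pf_bd I k hPf)
    (transportCls (bd I k) (I.length + k) (bd_length I k) _ (cls_bd I k hs)),
    ← bd_iff I k PM hs hPM]
  simp only [transport (bd I k) (I.length + k) (bd_length I k)]
  rfl

/-- the rank algorithm -/
def rkA (I : List (List (List (ℤ × List ℕ)))) : ℕ :=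
  ((List.range I.length).filter (fun k => algo (bd I (min k I.length))
    (bits (bd I (min k I.length))).length)).length

theorem filter_len (n k0 : ℕ) :
    ((List.range n).filter (fun k => decide (k0 ≤ k))).length = n - k0 := by
  induction n with
  | zero => simp
  | succ n ih =>
    rw [List.range_succ, List.filter_append, List.length_append, ih]
    by_cases h : k0 ≤ n
    · simp [h]
      omega
    · simp [h]
      omega

theorem rkA_correct (hPf : Pf I) (hs : Cls (KK I) (CC I))
    (hPM : ∀ z : ℕ → ℤ, PM.map (MvPolynomial.eval z) = MM (KK I) (CC I) (mon z)) :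
    rkA I = (PM.map (algebraMap (MvPolynomial ℕ ℤ) (FractionRing (MvPolynomial ℕ ℤ)))).rank := by
  set r := (PM.map (algebraMap (MvPolynomial ℕ ℤ) (FractionRing (MvPolynomial ℕ ℤ)))).rank with hr
  have hrn : r ≤ I.length := by
    have := Matrix.rank_le_width (PM.map (algebraMap (MvPolynomial ℕ ℤ)
      (FractionRing (MvPolynomial ℕ ℤ))))
    exact this
  have h1 : ∀ k, algo (bd I (min k I.length)) (bits (bd I (min k I.length))).length =
      decide (I.length - r ≤ k) := by
    intro k
    rw [bits_length, Bool.eq_iff_iff, algo_bd I (min k I.length) PM hPf hs hPM,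
      decide_eq_true_iff]
    omega
  rw [rkA]
  simp only [h1]
  rw [filter_len]
  omega

end

section poly

variable {α : Type} [TEnc α]

theorem poly_bitsOf {β : Type} [TEnc β] {f : α → β} (hf : Poly f) :
    Poly (fun a => (bits (f a) : List Bool)) := by
  obtain ⟨c, q, h⟩ := hf
  exact PC.comp (g := fun x => x) (f := fun a => bits (f a)) PC.rawIn ⟨c, q, h⟩

theorem poly_bord {I : α → List (List (List (ℤ × List ℕ)))} {B k : α → ℕ} {R Rk : α → List ℕ}
    (hI : Poly I) (hB : Poly B) (hk : Poly k) (hR : Poly R) (hRk : Poly Rk) :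
    Poly (fun a => bord (I a) (B a) (k a) (R a) (Rk a)) := by
  unfold bord pv yv
  fun_prop

theorem poly_rkA {I : α → List (List (List (ℤ × List ℕ)))} (hI : Poly I) :
    Poly (fun a => rkA (I a)) := by
  unfold rkA
  refine NPC.Poly.length ?_
  have hn : UPoly (fun a => (I a).length) := UPoly.length hI
  refine NPC.Poly.filter (l := fun a => List.range (I a).length)
    (p := fun a k => algo (bd (I a) (min k (I a).length))
      (bits (bd (I a) (min k (I a).length))).length) hn.range ?_
  have hI1 : Poly (fun q : α × ℕ => I q.1) := hI.comp (NPC.Poly.fst NPC.Poly.id)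
  have hn1 : UPoly (fun q : α × ℕ => (I q.1).length) := UPoly.length hI1
  have hk1 : UPoly (fun q : α × ℕ => min q.2 (I q.1).length) :=
    UPoly.of_le (NPC.Poly.min (NPC.Poly.snd NPC.Poly.id) hn1.toPoly) hn1
      (fun a => min_le_right _ _)
  have hvb : Poly (fun q : α × ℕ => vb (I q.1)) := by
    unfold vb
    fun_prop
  have hbd : Poly (fun q : α × ℕ => bd (I q.1) (min q.2 (I q.1).length)) :=
    poly_bord hI1 hvb hk1.toPoly hn1.range hk1.range
  exact poly_algo hbd (UPoly.length (poly_bitsOf hbd))

end poly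

end Pool.Agent.H442R3.SP
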